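import Pool.Agent.Helper75.EC.TRANS

open MvPolynomial

universe w

namespace Pool.Agent.Helper75.EC

theorem BP_span {K : Type*} [Field K] {N m k : ℕ} (w : Fin N → Fin m → K) (I : Finset (Fin N))
    (g : Fin k → Fin m → K) (y : Fin m → K) :
    y ∈ Submodule.span K (w '' I ∪ Set.range g) ↔
      ∃ (c : Fin N → K) (a : Fin k → K), y = ∑ i ∈ I, c i • w i + ∑ j, a j • g j := by
  classical
  rw [Submodule.span_union, Submodule.mem_sup]
  constructor
  · rintro ⟨y1, h1, y2, h2, rfl⟩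
    obtain ⟨c, hc⟩ := (Submodule.mem_span_image_finset_iff_exists_fun K).mp h1
    obtain ⟨a, ha⟩ := (Submodule.mem_span_range_iff_exists_fun K).mp h2
    refine ⟨fun i => if h : i ∈ I then c ⟨i, h⟩ else 0, a, ?_⟩
    rw [← ha, ← hc]
    congr 1
    rw [← Finset.sum_coe_sort I]
    apply Finset.sum_congr rfl
    intro i _
    simp
  · rintro ⟨c, a, rfl⟩
    refine ⟨_, Submodule.sum_mem _ fun i hi => Submodule.smul_mem _ _
      (Submodule.subset_span ⟨i, hi, rfl⟩), _, Submodule.sum_mem _ fun j _ =>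
      Submodule.smul_mem _ _ (Submodule.subset_span ⟨j, rfl⟩), rfl⟩

/-- The parametrising forms of the join. -/
noncomputable def BP_lin {K : Type*} [Field K] {N : ℕ} (m k : ℕ) (w : Fin N → Fin (m + 1) → K)
    (A : Matrix (Fin (m + 1)) (Fin (m + 1)) K) (I : Finset (Fin N)) (e : Fin 2)
    (r : Fin (m + 1)) : MvPolynomial ((Fin k × Fin 2) ⊕ ((Fin N ⊕ Fin k) × Fin 2)) K :=
  ∑ i ∈ I, X (Sum.inr (Sum.inl i, e)) * C (w i r) +
    ∑ j : Fin k, X (Sum.inr (Sum.inr j, e)) *
      ∑ l, C (A r l) * (X (Sum.inl (j, 0)) ^ (m - (l : ℕ)) * X (Sum.inl (j, 1)) ^ (l : ℕ))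

theorem BP_eval_lin {K : Type*} [Field K] {N : ℕ} (m k : ℕ) (w : Fin N → Fin (m + 1) → K)
    (A : Matrix (Fin (m + 1)) (Fin (m + 1)) K) (I : Finset (Fin N)) (e : Fin 2)
    (r : Fin (m + 1)) (x : (Fin k × Fin 2) ⊕ ((Fin N ⊕ Fin k) × Fin 2) → K) :
    eval x (BP_lin m k w A I e r) = (∑ i ∈ I, x (Sum.inr (Sum.inl i, e)) • w i +
      ∑ j : Fin k, x (Sum.inr (Sum.inr j, e)) •
        A.mulVec (ver m (x (Sum.inl (j, 0))) (x (Sum.inl (j, 1))))) r := by
  unfold BP_lin
  rw [map_add, map_sum, map_sum, Pi.add_apply, Finset.sum_apply, Finset.sum_apply]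
  congr 1
  · apply Finset.sum_congr rfl
    intro i _
    simp
  · apply Finset.sum_congr rfl
    intro j _
    rw [map_mul, map_sum, eval_X, Pi.smul_apply, smul_eq_mul]
    congr 1
    unfold Matrix.mulVec dotProduct ver
    apply Finset.sum_congr rfl
    intro l _
    simp

theorem st_BP : ST_BP.{w} := by
  classical
  intro K _ _ n u v A B I k F G hFG
  let σ : Type := (Fin k × Fin 2) ⊕ ((Fin (n + 3) ⊕ Fin k) × Fin 2)
  set Θ : Fin (n + 1) ⊕ Fin (n + 2) → MvPolynomial ((Fin k × Fin 2) ⊕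
      ((Fin (n + 3) ⊕ Fin k) × Fin 2)) K :=
    Sum.elim (BP_lin n k u A I 0) (BP_lin (n + 1) k v B I 1) with hΘ
  set D : MvPolynomial ((Fin k × Fin 2) ⊕ ((Fin (n + 3) ⊕ Fin k) × Fin 2)) K :=
    (∏ j : Fin k, X (Sum.inl (j, 0))) * ∏ q ∈ (Finset.univ : Finset (Fin k × Fin k)).filter
      (fun q => q.1 ≠ q.2), (X (Sum.inl (q.1, 0)) * X (Sum.inl (q.2, 1)) -
        X (Sum.inl (q.2, 0)) * X (Sum.inl (q.1, 1))) with hD
  have hD0 : D ≠ 0 := by
    rw [hD]
    apply mul_ne_zero
    · exact Finset.prod_ne_zero_iff.mpr fun j _ => X_ne_zero _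
    · apply Finset.prod_ne_zero_iff.mpr
      rintro ⟨j, l⟩ hq
      simp only [Finset.mem_filter, Finset.mem_univ, true_and] at hq
      intro h0
      have := congrArg (eval (fun q : (Fin k × Fin 2) ⊕ ((Fin (n + 3) ⊕ Fin k) × Fin 2) =>
        if q = Sum.inl (j, 0) ∨ q = Sum.inl (l, 1) then (1 : K) else 0)) h0
      simp only [map_sub, map_mul, eval_X, map_zero] at this
      simp [hq, Ne.symm hq] at this
  -- points of the parameter space give points of the join
  have hto : ∀ x : (Fin k × Fin 2) ⊕ ((Fin (n + 3) ⊕ Fin k) × Fin 2) → K, eval x D ≠ 0 →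
      (fun q => eval x (Θ q)) ∈ joinSet u v A B I k := by
    intro x hx
    rw [hD, map_mul] at hx
    have hx1 := left_ne_zero_of_mul hx
    have hx2 := right_ne_zero_of_mul hx
    rw [map_prod, Finset.prod_ne_zero_iff] at hx1 hx2
    refine ⟨fun j => x (Sum.inl (j, 0)), fun j => x (Sum.inl (j, 1)), fun j hj => ?_,
      fun j l hjl h => ?_, ?_, ?_⟩
    · have := hx1 j (Finset.mem_univ j)
      rw [eval_X] at this
      exact this hj.1
    · have := hx2 (j, l) (by simp [hjl])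
      simp only [map_sub, map_mul, eval_X] at this
      exact this (sub_eq_zero.mpr h)
    · rw [BP_span]
      refine ⟨fun i => x (Sum.inr (Sum.inl i, 0)), fun j => x (Sum.inr (Sum.inr j, 0)), ?_⟩
      funext r
      simp only [hΘ, Sum.elim_inl]
      rw [BP_eval_lin]
    · rw [BP_span]
      refine ⟨fun i => x (Sum.inr (Sum.inl i, 1)), fun j => x (Sum.inr (Sum.inr j, 1)), ?_⟩
      funext r
      simp only [hΘ, Sum.elim_inr]
      rw [BP_eval_lin]
  -- and every point of the join is obtained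
  have hfrom : ∀ p ∈ joinSet u v A B I k,
      ∃ x : (Fin k × Fin 2) ⊕ ((Fin (n + 3) ⊕ Fin k) × Fin 2) → K,
      p = fun q => eval x (Θ q) := by
    rintro p ⟨s, t, _, _, h1, h2⟩
    rw [BP_span] at h1 h2
    obtain ⟨c, a, hca⟩ := h1
    obtain ⟨c', a', hca'⟩ := h2
    refine ⟨Sum.elim (fun q => if q.2 = 0 then s q.1 else t q.1)
      (fun q => if q.2 = 0 then Sum.elim c a q.1 else Sum.elim c' a' q.1), ?_⟩
    funext q
    rcases q with r | r
    · simp only [hΘ, Sum.elim_inl]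
      rw [BP_eval_lin]
      simpa using congrFun hca r
    · simp only [hΘ, Sum.elim_inr]
      rw [BP_eval_lin]
      simpa using congrFun hca' r
  have hprod : aeval Θ F * aeval Θ G = 0 := by
    have h1 : D * (aeval Θ F * aeval Θ G) = 0 := by
      apply MvPolynomial.funext
      intro x
      by_cases hx : eval x D = 0
      · simp [hx]
      · have h2 := hFG _ (hto x hx)
        rw [map_mul] at h2
        rw [map_mul (eval x) D, map_mul (eval x) (aeval Θ F), TRANS_ev, TRANS_ev, h2]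
        simp
    exact (mul_eq_zero.mp h1).resolve_left hD0
  rcases mul_eq_zero.mp hprod with h | h
  · left
    intro p hp
    obtain ⟨x, rfl⟩ := hfrom p hp
    rw [← TRANS_ev, h, map_zero]
  · right
    intro p hp
    obtain ⟨x, rfl⟩ := hfrom p hp
    rw [← TRANS_ev, h, map_zero]

end Pool.Agent.Helper75.EC
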