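import Pool.Agent.Helper75.EC.Stmts

open MvPolynomial

universe w

namespace Pool.Agent.Helper75.EC

section

variable {n : ℕ}

theorem EFFC_del_add (x y : Cls n) (i : Fin (n + 3)) : del (x + y) i = del x i + del y i := by
  simp only [del, Prod.fst_add, Prod.snd_add, Pi.add_apply]; ring

theorem EFFC_del_smul (c : ℝ) (x : Cls n) (i : Fin (n + 3)) : del (c • x) i = c * del x i := by
  simp only [del, Prod.smul_fst, Prod.smul_snd, Pi.smul_apply, smul_eq_mul]; ring

theorem EFFC_wt_add (x y : Cls n) : wt (x + y) = wt x + wt y := by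
  simp only [wt, EFFC_del_add, Finset.sum_add_distrib, Prod.fst_add, Prod.snd_add]; ring

theorem EFFC_wt_smul (c : ℝ) (x : Cls n) : wt (c • x) = c * wt x := by
  simp only [wt, EFFC_del_smul, ← Finset.mul_sum, Prod.smul_fst, Prod.smul_snd, smul_eq_mul]; ring

theorem EFFC_zero : InC (0 : Cls n) := by
  refine ⟨?_, ?_, ?_, ?_, ?_, ?_, ?_, ?_⟩ <;> simp [del, wt]

theorem EFFC_add {x y : Cls n} (hx : InC x) (hy : InC y) : InC (x + y) := by
  refine ⟨add_nonneg hx.a0 hy.a0, add_nonneg hx.b0 hy.b0, fun i => ?_, fun i => ?_, ?_,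
    fun q J hJ => ?_, fun j J hJ => ?_, fun j J hJ => ?_⟩
  · rw [EFFC_del_add]; exact add_nonneg (hx.d0 i) (hy.d0 i)
  · rw [EFFC_del_add, EFFC_wt_add]; exact add_le_add (hx.dw i) (hy.dw i)
  · rw [EFFC_wt_add]
    have h1 := hx.t4
    have h2 := hy.t4
    simp only [Prod.fst_add, Prod.snd_add]
    linarith
  · rw [EFFC_wt_add]
    have h1 := hx.hL q J hJ
    have h2 := hy.hL q J hJ
    simp only [EFFC_del_add, Finset.sum_add_distrib, Prod.fst_add, Prod.snd_add]
    linarith
  · rw [EFFC_wt_add]
    have h1 := hx.hA j J hJ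
    have h2 := hy.hA j J hJ
    simp only [EFFC_del_add, Finset.sum_add_distrib, Prod.fst_add]
    linarith
  · rw [EFFC_wt_add]
    have h1 := hx.hB j J hJ
    have h2 := hy.hB j J hJ
    simp only [EFFC_del_add, Finset.sum_add_distrib, Prod.fst_add]
    linarith

theorem EFFC_smul {c : ℝ} (hc : 0 ≤ c) {x : Cls n} (hx : InC x) : InC (c • x) := by
  refine ⟨mul_nonneg hc hx.a0, mul_nonneg hc hx.b0, fun i => ?_, fun i => ?_, ?_,
    fun q J hJ => ?_, fun j J hJ => ?_, fun j J hJ => ?_⟩
  · rw [EFFC_del_smul]; exact mul_nonneg hc (hx.d0 i)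
  · rw [EFFC_del_smul, EFFC_wt_smul]; exact mul_le_mul_of_nonneg_left (hx.dw i) hc
  · rw [EFFC_wt_smul]
    have h1 := mul_le_mul_of_nonneg_left hx.t4 hc
    simp only [Prod.smul_fst, Prod.smul_snd, smul_eq_mul]
    linarith
  · rw [EFFC_wt_smul]
    have h1 := mul_le_mul_of_nonneg_left (hx.hL q J hJ) hc
    simp only [EFFC_del_smul, ← Finset.mul_sum, Prod.smul_fst, Prod.smul_snd, smul_eq_mul]
    linarith
  · rw [EFFC_wt_smul]
    have h1 := mul_le_mul_of_nonneg_left (hx.hA j J hJ) hc
    simp only [EFFC_del_smul, ← Finset.mul_sum, Prod.smul_fst, smul_eq_mul]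
    linarith
  · rw [EFFC_wt_smul]
    have h1 := mul_le_mul_of_nonneg_left (hx.hB j J hJ) hc
    simp only [EFFC_del_smul, ← Finset.mul_sum, Prod.smul_fst, smul_eq_mul]
    linarith

theorem EFFC_closed : IsClosed {x : Cls n | InC x} := by
  have hd : ∀ i, Continuous fun x : Cls n => del x i := by
    intro i; unfold del; fun_prop
  have hw : Continuous fun x : Cls n => wt x := by
    unfold wt
    have : Continuous fun x : Cls n => ∑ i, del x i := continuous_finsetSum _ fun i _ => hd i
    fun_prop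
  have hs : ∀ J : Finset (Fin (n + 3)), Continuous fun x : Cls n => ∑ i ∈ J, del x i :=
    fun J => continuous_finsetSum _ fun i _ => hd i
  have heq : {x : Cls n | InC x} = {x : Cls n | 0 ≤ x.1} ∩ ({x : Cls n | 0 ≤ x.2.1} ∩
      ({x : Cls n | ∀ i, 0 ≤ del x i} ∩ ({x : Cls n | ∀ i, del x i ≤ wt x} ∩
      ({x : Cls n | x.2.1 ≤ x.1 + wt x} ∩ ({x : Cls n | ∀ (q : ℕ) (J : Finset (Fin (n + 3))),
        J.card = 2 * q → ∑ i ∈ J, del x i ≤ x.1 + x.2.1 + q * wt x} ∩
      ({x : Cls n | ∀ (j : ℕ) (J : Finset (Fin (n + 3))),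
        J.card = 3 * j + 3 → ∑ i ∈ J, del x i ≤ x.1 + (2 * j + 2) * wt x} ∩
      {x : Cls n | ∀ (j : ℕ) (J : Finset (Fin (n + 3))),
        J.card = 3 * j + 1 → ∑ i ∈ J, del x i ≤ 2 * x.1 + (j + 1) * wt x})))))) := by
    ext x
    constructor
    · intro h
      exact ⟨h.a0, h.b0, h.d0, h.dw, h.t4, h.hL, h.hA, h.hB⟩
    · rintro ⟨h1, h2, h3, h4, h5, h6, h7, h8⟩
      exact ⟨h1, h2, h3, h4, h5, h6, h7, h8⟩
  rw [heq]
  refine IsClosed.inter (isClosed_le (by fun_prop) (by fun_prop)) ?_
  refine IsClosed.inter (isClosed_le (by fun_prop) (by fun_prop)) ?_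
  refine IsClosed.inter ?_ ?_
  · simp only [Set.ofPred_forall]
    exact isClosed_iInter fun i => isClosed_le (by fun_prop) (hd i)
  refine IsClosed.inter ?_ ?_
  · simp only [Set.ofPred_forall]
    exact isClosed_iInter fun i => isClosed_le (hd i) hw
  refine IsClosed.inter (isClosed_le (by fun_prop) (by fun_prop)) ?_
  refine IsClosed.inter ?_ (IsClosed.inter ?_ ?_)
  · simp only [Set.ofPred_forall]
    exact isClosed_iInter fun q => isClosed_iInter fun J => isClosed_iInter fun _ =>
      isClosed_le (hs J) (by fun_prop)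
  · simp only [Set.ofPred_forall]
    exact isClosed_iInter fun q => isClosed_iInter fun J => isClosed_iInter fun _ =>
      isClosed_le (hs J) (by fun_prop)
  · simp only [Set.ofPred_forall]
    exact isClosed_iInter fun q => isClosed_iInter fun J => isClosed_iInter fun _ =>
      isClosed_le (hs J) (by fun_prop)

/-- the exceptional classes satisfy the inequalities -/
theorem EFFC_exc (j : Fin (n + 3)) : InC ((0, 0, -Pi.single j 1) : Cls n) := by
  classical
  have hd : ∀ i, del ((0, 0, -Pi.single j 1) : Cls n) i = if i = j then 1 else 0 := by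
    intro i
    by_cases h : i = j
    · subst h; simp [del]
    · simp [del, h]
  have hw : wt ((0, 0, -Pi.single j 1) : Cls n) = 1 := by
    simp [wt, hd]
  have hJ : ∀ J : Finset (Fin (n + 3)), ∑ i ∈ J, del ((0, 0, -Pi.single j 1) : Cls n) i =
      if j ∈ J then 1 else 0 := by
    intro J
    simp only [hd]
    simp
  refine ⟨le_rfl, le_rfl, fun i => ?_, fun i => ?_, ?_, fun q J hq => ?_, fun q J hq => ?_,
    fun q J hq => ?_⟩
  · rw [hd]; split_ifs <;> norm_num
  · rw [hd, hw]; split_ifs <;> norm_num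
  · rw [hw]; norm_num
  · rw [hJ, hw]
    split_ifs with h
    · have : 0 < J.card := Finset.card_pos.mpr ⟨j, h⟩
      have h1 : 1 ≤ q := by omega
      have h2 : (1 : ℝ) ≤ q := by exact_mod_cast h1
      simpa using h2
    · simp
  · rw [hJ, hw]
    have h2 : (0 : ℝ) ≤ q := Nat.cast_nonneg q
    split_ifs
    · simp only; linarith
    · simp only; linarith
  · rw [hJ, hw]
    have h2 : (0 : ℝ) ≤ q := Nat.cast_nonneg q
    split_ifs
    · simp only; linarith
    · simp only; linarith

/-- the cone as a submodule -/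
noncomputable def EFFC_sub (n : ℕ) : Submodule NNReal (Cls n) where
  carrier := {x | InC x}
  add_mem' := fun hx hy => EFFC_add hx hy
  zero_mem' := EFFC_zero
  smul_mem' := fun c _ hx => EFFC_smul c.2 hx

theorem EFFC_span_top {K : Type*} [Field K] {N m : ℕ} (u : Fin N → Fin m → K) (r : Fin N → K)
    (hr : ∀ i, r i ≠ 0) (S : Finset (Fin N)) (hS : S.card = m)
    (hu : LinearIndependent K fun i : S => u i) :
    Submodule.span K (Set.range fun i => r i • u i) = ⊤ := by
  have h1 : Submodule.span K (Set.range fun i : S => u i) = ⊤ := by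
    apply hu.span_eq_top_of_card_eq_finrank'
    simp [hS]
  rw [eq_top_iff, ← h1, Submodule.span_le]
  rintro _ ⟨i, rfl⟩
  have h2 : u i = (r i)⁻¹ • (r i • u i) := by
    rw [smul_smul, inv_mul_cancel₀ (hr i), one_smul]
  change u i ∈ Submodule.span K (Set.range fun i => r i • u i)
  rw [h2]
  exact Submodule.smul_mem _ _ (Submodule.subset_span ⟨i, rfl⟩)

end

theorem st_EFFC (hW : ST_W.{w}) (hT2 : ST_T2.{w}) (hT4 : ST_T4.{w}) (hIL : ST_IL.{w})
    (hIA : ST_IA.{w}) (hIB : ST_IB.{w}) (hTR : ST_TRANS.{w}) (hSC : ST_SCALE.{w})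
    (hSE : ST_SETUP.{w}) : ST_EFFC.{w} := by
  classical
  intro K _ _ n u v hu hv
  have hgen : effClasses u v ⊆ {x : Cls n | InC x} := by
    rintro x ⟨a, b, m, ⟨F, hF, hFb, hFm⟩, rfl⟩
    obtain ⟨t, r, s, ht, hr, hs, h1, h2, h3⟩ := hSE K n u v hu hv
    obtain ⟨S, _, hS⟩ := Finset.exists_subset_card_eq
      (s := (Finset.univ : Finset (Fin (n + 3)))) (n := n + 1) (by simp)
    obtain ⟨S', _, hS'⟩ := Finset.exists_subset_card_eq
      (s := (Finset.univ : Finset (Fin (n + 3)))) (n := n + 2) (by simp)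
    have htu := EFFC_span_top u r hr S hS (hu S hS)
    have htv := EFFC_span_top v s hs S' hS' (hv S' hS')
    obtain ⟨δ, f, hδ, hf⟩ := hTR K (n + 3) (n + 1) (n + 2) t (fun i => r i • u i)
      (fun i => s i • v i) h1 (by simpa only [smul_smul] using h2) h3 htu htv F a b
      (fun i => (m i).toNat) hF hFb
      (fun i => hSC K (n + 1) (n + 2) F a b (m i).toNat (u i) (v i) (r i) (s i) hFb (hr i) (hs i)
        (hFm i))
    obtain ⟨W, hWW⟩ := Nat.exists_eq_add_of_le (hW K (n + 3) t δ a b f hf)
    have hdel : ∀ i, del (cls a b fun i => ((m i).toNat : ℤ)) i = (δ i : ℝ) := by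
      intro i
      have : ((δ i + (m i).toNat : ℕ) : ℝ) = ((a + b : ℕ) : ℝ) := by rw [hδ i]
      push_cast at this
      simp only [del, cls]
      push_cast
      linarith
    have hwt : wt (cls a b fun i => ((m i).toNat : ℤ)) = (W : ℝ) := by
      unfold wt
      simp only [hdel]
      have : ((∑ i, δ i : ℕ) : ℝ) = ((2 * a + b + W : ℕ) : ℝ) := by rw [hWW]
      push_cast at this
      rw [this]
      simp only [cls]
      ring
    have hpos : InC (cls a b fun i => ((m i).toNat : ℤ)) := by
      refine ⟨?_, ?_, fun i => ?_, fun i => ?_, ?_, fun q J hJ => ?_, fun j J hJ => ?_,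
        fun j J hJ => ?_⟩
      · exact Nat.cast_nonneg a
      · exact Nat.cast_nonneg b
      · rw [hdel]; exact Nat.cast_nonneg _
      · rw [hdel, hwt]
        exact_mod_cast hT2 K (n + 3) t δ a b W f hf ht hWW i
      · rw [hwt]
        have := hT4 K (n + 3) t δ a b W f hf hWW
        simp only [cls]
        exact_mod_cast this
      · simp only [hdel]
        rw [hwt]
        have := hIL K (n + 3) t δ a b W f hf ht hWW q J hJ
        simp only [cls]
        exact_mod_cast this
      · simp only [hdel]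
        rw [hwt]
        have := hIA K (n + 3) t δ a b W f hf ht hWW j J hJ
        simp only [cls]
        exact_mod_cast this
      · simp only [hdel]
        rw [hwt]
        have := hIB K (n + 3) t δ a b W f hf ht hWW j J hJ
        simp only [cls]
        exact_mod_cast this
    have hdec : cls a b m = cls a b (fun i => ((m i).toNat : ℤ)) +
        ∑ i, (((m i).toNat : ℝ) - m i) • ((0, 0, -Pi.single i 1) : Cls n) := by
      have h4 : ∑ i, (((m i).toNat : ℝ) - m i) • ((0, 0, -Pi.single i 1) : Cls n) =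
          (0, 0, fun i => -(((m i).toNat : ℝ) - m i)) := by
        refine Prod.ext ?_ (Prod.ext ?_ ?_)
        · rw [Prod.fst_sum]; simp
        · rw [Prod.snd_sum, Prod.fst_sum]; simp
        · rw [Prod.snd_sum, Prod.snd_sum]
          funext j
          rw [Finset.sum_apply, Finset.sum_eq_single j]
          · simp
          · intro i _ hij
            simp [Ne.symm hij]
          · simp
      rw [h4]
      simp only [cls, Prod.mk_add_mk, add_zero, Prod.mk.injEq, true_and]
      funext i
      simp only [Pi.add_apply, Int.cast_natCast]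
      ring
    have hmem : cls a b m ∈ EFFC_sub n := by
      rw [hdec]
      apply Submodule.add_mem _ hpos
      apply Submodule.sum_mem
      intro i _
      apply EFFC_smul _ (EFFC_exc i)
      have := Int.self_le_toNat (m i)
      have h5 : ((m i : ℤ) : ℝ) ≤ (((m i).toNat : ℤ) : ℝ) := by exact_mod_cast this
      push_cast at h5
      linarith
    exact hmem
  intro x hx
  have h1 : Submodule.span NNReal (effClasses u v) ≤ EFFC_sub n := Submodule.span_le.mpr hgen
  have h2 : closure (Submodule.span NNReal (effClasses u v) : Set (Cls n)) ⊆ {x | InC x} :=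
    closure_minimal h1 EFFC_closed
  exact h2 hx

end Pool.Agent.Helper75.EC
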