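import Pool.Agent.Helper75.EC.TRANS

open MvPolynomial

universe w

namespace Pool.Agent.Helper75.EC

/-- bihomogeneous scaling, polynomial version -/
theorem SCALE_aeval {K : Type*} [Field K] {r s : ℕ} {τ : Type*}
    (F : MvPolynomial (Fin r ⊕ Fin s) K) (a b : ℕ) (hF : IsBihom F a b)
    (y : Fin r → MvPolynomial τ K) (z : Fin s → MvPolynomial τ K) (c c' : K) :
    aeval (Sum.elim (fun j => C c * y j) (fun j => C c' * z j)) F =
      C (c ^ a * c' ^ b) * aeval (Sum.elim y z) F := by
  rw [aeval_def, aeval_def, eval₂_eq', eval₂_eq', Finset.mul_sum]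
  apply Finset.sum_congr rfl
  intro d hd
  obtain ⟨h1, h2⟩ := hF d hd
  rw [Fintype.prod_sum_type, Fintype.prod_sum_type]
  simp only [Sum.elim_inl, Sum.elim_inr, mul_pow, Finset.prod_mul_distrib]
  rw [Finset.prod_pow_eq_pow_sum, Finset.prod_pow_eq_pow_sum, h1, h2, C_mul, C_pow, C_pow]
  ring

theorem st_SCALE : ST_SCALE.{w} := by
  classical
  intro K _ r s F a b m u v c c' hF hc hc' hm
  -- the scaling of the variables
  set g : Fin r ⊕ Fin s → K := Sum.elim (fun _ => c⁻¹) (fun _ => c'⁻¹) with hg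
  set G : MvPolynomial (Fin r ⊕ Fin s) K :=
    aeval (fun j => (X j + C (Sum.elim u v j))) F with hG
  have h1 : aeval (fun j => (X j + C (Sum.elim (fun j => c * u j) (fun j => c' * v j) j) :
      MvPolynomial (Fin r ⊕ Fin s) K)) F =
      C (c ^ a * c' ^ b) * aeval (fun j => C (g j) * X j) G := by
    have h2 : (aeval (fun j => (C (g j) * X j : MvPolynomial (Fin r ⊕ Fin s) K))) G =
        aeval (Sum.elim (fun j => C c⁻¹ * X (Sum.inl j) + C (u j))
          (fun j => C c'⁻¹ * X (Sum.inr j) + C (v j))) F := by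
      have h3 : (aeval (fun j => (C (g j) * X j : MvPolynomial (Fin r ⊕ Fin s) K))) G =
        ((aeval (fun j => (C (g j) * X j : MvPolynomial (Fin r ⊕ Fin s) K))).comp
          (aeval (fun j => (X j + C (Sum.elim u v j))))) F := rfl
      rw [h3, comp_aeval]
      congr 2
      funext q
      rcases q with j | j
      · simp only [map_add, aeval_X, Sum.elim_inl, hg]
        congr 1
        exact aeval_C _ _
      · simp only [map_add, aeval_X, Sum.elim_inr, hg]
        congr 1
        exact aeval_C _ _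
    rw [h2, ← SCALE_aeval F a b hF]
    congr 2
    funext q
    rcases q with j | j
    · simp only [Sum.elim_inl]
      rw [mul_add, ← mul_assoc, ← C_mul, ← C_mul, mul_inv_cancel₀ hc, C_1, one_mul]
    · simp only [Sum.elim_inr]
      rw [mul_add, ← mul_assoc, ← C_mul, ← C_mul, mul_inv_cancel₀ hc', C_1, one_mul]
  intro d hd
  rw [h1, mem_support_iff, coeff_C_mul] at hd
  have h4 : coeff d (aeval (fun j => (C (g j) * X j : MvPolynomial (Fin r ⊕ Fin s) K)) G) ≠ 0 :=
    right_ne_zero_of_mul hd
  apply hm d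
  rw [mem_support_iff]
  intro h5
  apply h4
  rw [aeval_def, eval₂_eq', coeff_sum]
  apply Finset.sum_eq_zero
  intro e he
  have h6 : (∏ i, (C (g i) * X i : MvPolynomial (Fin r ⊕ Fin s) K) ^ e i) =
      C (∏ i, g i ^ e i) * monomial e 1 := by
    simp only [mul_pow, Finset.prod_mul_distrib]
    rw [map_prod]
    congr 1
    · simp
    · rw [monomial_eq, C_1, one_mul, Finsupp.prod_fintype _ _ (by simp)]
  rw [algebraMap_eq, h6, coeff_C_mul, coeff_C_mul, coeff_monomial]
  by_cases hed : e = d
  · subst hed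
    rw [h5]; simp
  · simp [hed]

end Pool.Agent.Helper75.EC
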