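import Pool.Agent.Helper75.EC.Stmts

open MvPolynomial

universe w

namespace Pool.Agent.Helper75.EC

theorem SETUP_zero {K : Type*} [Field K] {N m : ℕ} (u : Fin N → Fin m → K)
    (S : Finset (Fin N)) (hS : LinearIndependent K fun i : S => u i) (c : Fin N → K)
    (hc : ∑ i, c i • u i = 0) (h0 : ∀ i, i ∉ S → c i = 0) : c = 0 := by
  have h1 : ∑ i : S, c i • u i = 0 := by
    rw [← hc, Finset.sum_coe_sort S (fun i => c i • u i)]
    apply Finset.sum_subset (Finset.subset_univ S)
    intro i _ hi
    rw [h0 i hi, zero_smul]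
  have h2 := Fintype.linearIndependent_iff.mp hS (fun i => c i) h1
  funext i
  by_cases hi : i ∈ S
  · exact h2 ⟨i, hi⟩
  · exact h0 i hi

/-- a nonzero relation with a prescribed zero coordinate -/
theorem SETUP_exists {K : Type*} [Field K] {N m : ℕ} (h : m + 1 < N) (u : Fin N → Fin m → K)
    (j : Fin N) : ∃ c : Fin N → K, c ≠ 0 ∧ ∑ i, c i • u i = 0 ∧ c j = 0 := by
  let φ : (Fin N → K) →ₗ[K] (Fin m → K) × K :=
    { toFun := fun c => (∑ i, c i • u i, c j)
      map_add' := by
        intro x y
        simp [add_smul, Finset.sum_add_distrib]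
      map_smul' := by
        intro a x
        simp [mul_smul, Finset.smul_sum] }
  have h1 : LinearMap.ker φ ≠ ⊥ := by
    apply LinearMap.ker_ne_bot_of_finrank_lt
    simp [h]
  obtain ⟨c, hc, hc0⟩ := (Submodule.ne_bot_iff _).mp h1
  rw [LinearMap.mem_ker] at hc
  have h2 : (∑ i, c i • u i, c j) = ((0 : Fin m → K), (0 : K)) := hc
  exact ⟨c, hc0, congrArg Prod.fst h2, congrArg Prod.snd h2⟩

theorem SETUP_exists' {K : Type*} [Field K] {N m : ℕ} (h : m < N) (u : Fin N → Fin m → K) :
    ∃ c : Fin N → K, c ≠ 0 ∧ ∑ i, c i • u i = 0 := by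
  let φ : (Fin N → K) →ₗ[K] (Fin m → K) :=
    { toFun := fun c => ∑ i, c i • u i
      map_add' := by
        intro x y
        simp [add_smul, Finset.sum_add_distrib]
      map_smul' := by
        intro a x
        simp [mul_smul, Finset.smul_sum] }
  have h1 : LinearMap.ker φ ≠ ⊥ := by
    apply LinearMap.ker_ne_bot_of_finrank_lt
    simp [h]
  obtain ⟨c, hc, hc0⟩ := (Submodule.ne_bot_iff _).mp h1
  rw [LinearMap.mem_ker] at hc
  exact ⟨c, hc0, hc⟩

theorem st_SETUP : ST_SETUP.{w} := by
  classical
  intro K _ _ n u v hu hv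
  -- relations of `u` have at most one zero coordinate
  have hZ : ∀ c : Fin (n + 3) → K, ∑ i, c i • u i = 0 → ∀ i j, i ≠ j → c i = 0 → c j = 0 →
      c = 0 := by
    intro c hc i j hij hi hj
    have hcard : (Finset.univ \ {i, j} : Finset (Fin (n + 3))).card = n + 1 := by
      rw [Finset.card_sdiff_of_subset (Finset.subset_univ _), Finset.card_univ, Fintype.card_fin,
        Finset.card_pair hij]
      omega
    refine SETUP_zero u _ (hu _ hcard) c hc ?_
    intro k hk
    simp only [Finset.mem_sdiff, Finset.mem_univ, true_and, Finset.mem_insert,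
      Finset.mem_singleton, not_not] at hk
    rcases hk with rfl | rfl
    · exact hi
    · exact hj
  have h01 : (0 : Fin (n + 3)) ≠ 1 := by
    intro h
    have := congrArg Fin.val h
    simp at this
  obtain ⟨g, hg0, hg, hgz⟩ := SETUP_exists (by omega) u (0 : Fin (n + 3))
  obtain ⟨h, hh0, hh, hhz⟩ := SETUP_exists (by omega) u (1 : Fin (n + 3))
  have hgne : ∀ i, i ≠ 0 → g i ≠ 0 := fun i hi hgi => hg0 (hZ g hg i 0 hi hgi hgz)
  have hhne : ∀ i, i ≠ 1 → h i ≠ 0 := fun i hi hhi => hh0 (hZ h hh i 1 hi hhi hhz)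
  obtain ⟨l, hl⟩ := Infinite.exists_notMem_finset
    (insert 0 (Finset.univ.image fun i : Fin (n + 3) => -g i / h i))
  rw [Finset.mem_insert, not_or] at hl
  obtain ⟨hl0, hl1⟩ := hl
  set r : Fin (n + 3) → K := fun i => g i + l * h i with hr
  have hrne : ∀ i, r i ≠ 0 := by
    intro i hi
    by_cases h1 : i = 1
    · subst h1
      simp only [hr, hhz, mul_zero, add_zero] at hi
      exact hgne 1 h01.symm hi
    · apply hl1
      refine Finset.mem_image.mpr ⟨i, Finset.mem_univ _, ?_⟩
      rw [div_eq_iff (hhne i h1)]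
      simp only [hr] at hi
      linear_combination -hi
  have hrel : ∑ i, r i • u i = 0 := by
    simp only [hr, add_smul, Finset.sum_add_distrib, hg, mul_smul, ← Finset.smul_sum, hh,
      smul_zero, add_zero]
  obtain ⟨s, hs0, hs⟩ := SETUP_exists' (by omega) v
  refine ⟨fun i => h i / r i, r, s, ?_, hrne, ?_, hrel, ?_, hs⟩
  · intro i j hij
    by_contra hne
    simp only at hij
    set τ := h i / r i with hτ
    have hi : h i = τ * r i := by rw [hτ, div_mul_cancel₀ _ (hrne i)]
    have hj : h j = τ * r j := by rw [hij, div_mul_cancel₀ _ (hrne j)]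
    have h2 : (fun k => h k - τ * r k) = 0 := by
      apply hZ _ _ i j hne
      · simp [← hi]
      · simp [← hj]
      · simp only [sub_smul, Finset.sum_sub_distrib, hh, mul_smul, ← Finset.smul_sum, hrel,
          smul_zero, sub_zero]
    have h3 := congrFun h2 1
    simp only [hhz, zero_sub, Pi.zero_apply, neg_eq_zero, mul_eq_zero] at h3
    rcases h3 with h3 | h3
    · apply hh0
      funext k
      have := congrFun h2 k
      simpa [h3] using this
    · exact hrne 1 h3
  · intro i hi
    apply hs0
    have hcard : (Finset.univ \ {i} : Finset (Fin (n + 3))).card = n + 2 := by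
      rw [Finset.card_sdiff_of_subset (Finset.subset_univ _), Finset.card_univ, Fintype.card_fin,
        Finset.card_singleton]
      omega
    refine SETUP_zero v _ (hv _ hcard) s hs ?_
    intro k hk
    simp only [Finset.mem_sdiff, Finset.mem_univ, true_and,
      Finset.mem_singleton, not_not] at hk
    rw [hk]; exact hi
  · have h4 : ∀ i, h i / r i * r i = h i := fun i => div_mul_cancel₀ _ (hrne i)
    simp only [h4]
    exact hh

end Pool.Agent.Helper75.EC
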