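import Pool.Agent.Helper75.EC.Stmts

open MvPolynomial

universe w

namespace Pool.Agent.Helper75.EC

theorem TRANS_ev {K σ τ : Type*} [Field K] (x : τ → K) (g : σ → MvPolynomial τ K)
    (F : MvPolynomial σ K) : eval x (aeval g F) = eval (fun j => eval x (g j)) F := by
  have h : (aeval x : MvPolynomial τ K →ₐ[K] K) (aeval g F) =
      ((aeval x).comp (aeval g)) F := rfl
  rw [comp_aeval] at h
  simpa [aeval_eq_eval] using h

theorem TRANS_exists_eval_ne {K σ : Type*} [Field K] [Infinite K] (F : MvPolynomial σ K)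
    (h : F ≠ 0) : ∃ x, eval x F ≠ 0 := by
  by_contra hc
  push Not at hc
  exact h (MvPolynomial.funext fun x => by simpa using hc x)

/-- product trick -/
theorem TRANS_eq_of {K σ : Type*} [Field K] [Infinite K] (F G H : MvPolynomial σ K)
    (hH : H ≠ 0) (h : ∀ x, eval x H ≠ 0 → eval x F = eval x G) : F = G := by
  have h1 : H * (F - G) = 0 := by
    apply MvPolynomial.funext
    intro x
    by_cases hx : eval x H = 0
    · simp [hx]
    · simp [h x hx]
  rcases mul_eq_zero.mp h1 with h2 | h2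
  · exact absurd h2 hH
  · exact sub_eq_zero.mp h2

/-- bihomogeneous scaling -/
theorem TRANS_scale {K : Type*} [Field K] {r s : ℕ} (F : MvPolynomial (Fin r ⊕ Fin s) K)
    (a b : ℕ) (hF : IsBihom F a b) (y : Fin r → K) (z : Fin s → K) (c c' : K) :
    eval (Sum.elim (fun j => c * y j) (fun j => c' * z j)) F =
      c ^ a * c' ^ b * eval (Sum.elim y z) F := by
  rw [eval_eq', eval_eq', Finset.mul_sum]
  apply Finset.sum_congr rfl
  intro d hd
  obtain ⟨h1, h2⟩ := hF d hd
  rw [Fintype.prod_sum_type, Fintype.prod_sum_type]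
  simp only [Sum.elim_inl, Sum.elim_inr, mul_pow, Finset.prod_mul_distrib]
  rw [Finset.prod_pow_eq_pow_sum, Finset.prod_pow_eq_pow_sum, h1, h2]
  ring

section

variable {K : Type*} [Field K] {N r s : ℕ}

/-- linear forms after clearing denominators -/
noncomputable def TRANS_L (c : Fin 3) (u : Fin N → Fin r → K) (j : Fin r) :
    MvPolynomial (Fin N × Fin 3) K :=
  ∑ k, (∏ l ∈ Finset.univ.erase k, X (l, 0)) * X (k, c) * C (u k j)

/-- the pulled back polynomial with denominators cleared -/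
noncomputable def TRANS_Fh (u : Fin N → Fin r → K) (v : Fin N → Fin s → K)
    (F : MvPolynomial (Fin r ⊕ Fin s) K) : MvPolynomial (Fin N × Fin 3) K :=
  aeval (Sum.elim (TRANS_L 1 u) (TRANS_L 2 v)) F

theorem TRANS_L_wh (ω : Fin N × Fin 3 → ℕ) (c : Fin 3) (u : Fin N → Fin r → K) (α : ℕ)
    (h : ∀ k, ∑ l ∈ Finset.univ.erase k, ω (l, 0) + ω (k, c) = α) (j : Fin r) :
    IsWeightedHomogeneous ω (TRANS_L c u j) α := by
  unfold TRANS_L
  apply IsWeightedHomogeneous.sum
  intro k _
  have h1 := IsWeightedHomogeneous.prod (Finset.univ.erase k)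
    (fun l => (X (l, 0) : MvPolynomial (Fin N × Fin 3) K)) (fun l => ω (l, 0)) (w := ω)
    (fun l _ => isWeightedHomogeneous_X K ω (l, 0))
  have h2 := (h1.mul (isWeightedHomogeneous_X K ω (k, c))).mul
    (isWeightedHomogeneous_C ω (u k j))
  rwa [h k, add_zero] at h2

theorem TRANS_Fh_wh (ω : Fin N × Fin 3 → ℕ) (u : Fin N → Fin r → K) (v : Fin N → Fin s → K)
    (α β : ℕ) (hL : ∀ j, IsWeightedHomogeneous ω (TRANS_L 1 u j) α)
    (hR : ∀ j, IsWeightedHomogeneous ω (TRANS_L 2 v j) β)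
    (F : MvPolynomial (Fin r ⊕ Fin s) K) (a b : ℕ) (hF : IsBihom F a b) :
    IsWeightedHomogeneous ω (TRANS_Fh u v F) (a * α + b * β) := by
  unfold TRANS_Fh
  rw [aeval_def, eval₂_eq']
  apply IsWeightedHomogeneous.sum
  intro d hd
  obtain ⟨h1, h2⟩ := hF d hd
  have h3 := IsWeightedHomogeneous.prod Finset.univ
    (fun x => (Sum.elim (TRANS_L 1 u) (TRANS_L 2 v) x) ^ (d x))
    (fun x => d x • (Sum.elim (fun _ => α) (fun _ => β) x : ℕ)) (w := ω) (by
      rintro (j | j) _
      · exact (hL j).pow _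
      · exact (hR j).pow _)
  have h4 := (isWeightedHomogeneous_C ω (coeff d F)).mul h3
  rw [Fintype.sum_sum_type] at h4
  simp only [Sum.elim_inl, Sum.elim_inr, smul_eq_mul, ← Finset.sum_mul, h1, h2, zero_add] at h4
  exact h4

/-- the linear form near `x_i = 0` -/
theorem TRANS_L_split (c : Fin 3) (u : Fin N → Fin r → K) (i : Fin N) (j : Fin r) :
    TRANS_L c u j = (X (i, c) * ∏ l ∈ Finset.univ.erase i, X (l, 0)) * C (u i j) +
      X (i, 0) * ∑ k ∈ Finset.univ.erase i,
        (∏ l ∈ (Finset.univ.erase k).erase i, X (l, 0)) * X (k, c) * C (u k j) := by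
  unfold TRANS_L
  rw [← Finset.add_sum_erase _ _ (Finset.mem_univ i), Finset.mul_sum]
  congr 1
  · ring
  · apply Finset.sum_congr rfl
    intro k hk
    have hki : i ∈ Finset.univ.erase k := by
      simp only [Finset.mem_erase, Finset.mem_univ, and_true] at hk ⊢
      exact fun h => hk h.symm
    rw [← Finset.mul_prod_erase _ _ hki]
    ring

theorem TRANS_dvd [Infinite K] (u : Fin N → Fin r → K) (v : Fin N → Fin s → K)
    (F : MvPolynomial (Fin r ⊕ Fin s) K) (a b : ℕ) (hF : IsBihom F a b) (i : Fin N) (m : ℕ)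
    (hm : OrdGe F (Sum.elim (u i) (v i)) m) :
    (X (i, 0) : MvPolynomial (Fin N × Fin 3) K) ^ m ∣ TRANS_Fh u v F := by
  classical
  set p : Fin r ⊕ Fin s → K := Sum.elim (u i) (v i) with hp
  set G : MvPolynomial (Fin r ⊕ Fin s) K := aeval (fun j => (X j + C (p j))) F with hG
  set P0 : MvPolynomial (Fin N × Fin 3) K := ∏ l ∈ Finset.univ.erase i, X (l, 0) with hP0
  obtain ⟨c1, hc1⟩ : ∃ c : MvPolynomial (Fin N × Fin 3) K, c = X (i, 1) * P0 := ⟨_, rfl⟩
  obtain ⟨c2, hc2⟩ : ∃ c : MvPolynomial (Fin N × Fin 3) K, c = X (i, 2) * P0 := ⟨_, rfl⟩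
  set η : Fin r → MvPolynomial (Fin N × Fin 3) K := fun j => ∑ k ∈ Finset.univ.erase i,
        (∏ l ∈ (Finset.univ.erase k).erase i, X (l, 0)) * X (k, 1) * C (u k j) with hη
  set ζ : Fin s → MvPolynomial (Fin N × Fin 3) K := fun j => ∑ k ∈ Finset.univ.erase i,
        (∏ l ∈ (Finset.univ.erase k).erase i, X (l, 0)) * X (k, 2) * C (v k j) with hζ
  set M : ℕ := G.support.sup (fun e => ∑ j, e (Sum.inl j) + ∑ j, e (Sum.inr j)) with hM
  set Ψ : MvPolynomial (Fin N × Fin 3) K := ∑ e ∈ G.support, C (coeff e G) *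
    (∏ j, (X (i, 0) * η j) ^ e (Sum.inl j)) * (∏ j, (X (i, 0) * ζ j) ^ e (Sum.inr j)) *
    c1 ^ (M - ∑ j, e (Sum.inl j)) * c2 ^ (M - ∑ j, e (Sum.inr j)) with hΨ
  have hMle : ∀ e ∈ G.support, ∑ j, e (Sum.inl j) + ∑ j, e (Sum.inr j) ≤ M :=
    fun e he => Finset.le_sup (f := fun e : (Fin r ⊕ Fin s) →₀ ℕ =>
      ∑ j, e (Sum.inl j) + ∑ j, e (Sum.inr j)) he
  -- the point where x_i = 0 and everything else is 1
  set x0 : Fin N × Fin 3 → K := fun q => if q = (i, 0) then 0 else 1 with hx0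
  have hP0x : eval x0 P0 = 1 := by
    rw [hP0, map_prod]
    apply Finset.prod_eq_one
    intro l hl
    simp only [Finset.mem_erase, Finset.mem_univ, and_true] at hl
    simp [hx0, hl]
  have hc1x : eval x0 c1 = 1 := by
    rw [hc1, map_mul, hP0x]; simp [hx0]
  have hc2x : eval x0 c2 = 1 := by
    rw [hc2, map_mul, hP0x]; simp [hx0]
  have hc0 : c1 * c2 ≠ 0 := by
    intro h
    have := congrArg (eval x0) h
    rw [map_mul, hc1x, hc2x] at this
    simp at this
  have key : c1 ^ M * c2 ^ M * TRANS_Fh u v F = c1 ^ a * c2 ^ b * Ψ := by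
    apply TRANS_eq_of _ _ _ hc0
    intro x hx
    rw [map_mul] at hx
    have he1 : eval x c1 ≠ 0 := left_ne_zero_of_mul hx
    have he2 : eval x c2 ≠ 0 := right_ne_zero_of_mul hx
    set e1 := eval x c1 with he1'
    set e2 := eval x c2 with he2'
    have h1 : eval x (TRANS_Fh u v F) = e1 ^ a * e2 ^ b *
        eval (Sum.elim (fun j => x (i, 0) * eval x (η j) / e1)
          (fun j => x (i, 0) * eval x (ζ j) / e2)) G := by
      have h0 : (fun j => eval x (Sum.elim (TRANS_L 1 u) (TRANS_L 2 v) j)) =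
          Sum.elim (fun j => e1 * (x (i, 0) * eval x (η j) / e1 + u i j))
            (fun j => e2 * (x (i, 0) * eval x (ζ j) / e2 + v i j)) := by
        funext q
        rcases q with j | j
        · simp only [Sum.elim_inl]
          rw [TRANS_L_split 1 u i j, ← hP0, ← hc1, map_add, map_mul, eval_C,
            map_mul (eval x) (X (i, 0)), eval_X, ← he1']
          change e1 * u i j + x (i, 0) * eval x (η j) = _
          field_simp
          ring
        · simp only [Sum.elim_inr]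
          rw [TRANS_L_split 2 v i j, ← hP0, ← hc2, map_add, map_mul, eval_C,
            map_mul (eval x) (X (i, 0)), eval_X, ← he2']
          change e2 * v i j + x (i, 0) * eval x (ζ j) = _
          field_simp
          ring
      unfold TRANS_Fh
      rw [TRANS_ev, h0, TRANS_scale F a b hF, hG, TRANS_ev]
      congr 3
      funext q
      rcases q with j | j
      · simp [hp]
      · simp [hp]
    rw [map_mul, map_mul, map_pow, map_pow, h1, map_mul, map_mul, map_pow, map_pow,
      ← he1', ← he2']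
    rw [hΨ, map_sum, eval_eq', Finset.mul_sum, Finset.mul_sum, Finset.mul_sum]
    apply Finset.sum_congr rfl
    intro e he
    have hle := hMle e he
    rw [Fintype.prod_sum_type]
    simp only [Sum.elim_inl, Sum.elim_inr, map_mul, map_prod, map_pow, eval_C, eval_X, div_pow,
      Finset.prod_div_distrib]
    rw [Finset.prod_pow_eq_pow_sum, Finset.prod_pow_eq_pow_sum, ← he1', ← he2']
    have h3 : e1 ^ M = e1 ^ (M - ∑ j, e (Sum.inl j)) * e1 ^ (∑ j, e (Sum.inl j)) := by
      rw [← pow_add]; congr 1; omega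
    have h4 : e2 ^ M = e2 ^ (M - ∑ j, e (Sum.inr j)) * e2 ^ (∑ j, e (Sum.inr j)) := by
      rw [← pow_add]; congr 1; omega
    rw [h3, h4]
    have h5 : e1 ^ (∑ j, e (Sum.inl j)) ≠ 0 := pow_ne_zero _ he1
    have h6 : e2 ^ (∑ j, e (Sum.inr j)) ≠ 0 := pow_ne_zero _ he2
    field_simp
  have hΨd : (X (i, 0) : MvPolynomial (Fin N × Fin 3) K) ^ m ∣ Ψ := by
    rw [hΨ]
    apply Finset.dvd_sum
    intro e he
    have h1 : m ≤ ∑ j, e (Sum.inl j) + ∑ j, e (Sum.inr j) := by
      have := hm e he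
      rw [Finsupp.degree_eq_sum, Fintype.sum_sum_type] at this
      exact this
    simp only [mul_pow, Finset.prod_mul_distrib]
    rw [Finset.prod_pow_eq_pow_sum, Finset.prod_pow_eq_pow_sum]
    refine (pow_dvd_pow _ h1).trans ?_
    rw [pow_add]
    refine ⟨C (coeff e G) * (∏ j, η j ^ e (Sum.inl j)) * (∏ j, ζ j ^ e (Sum.inr j)) *
      c1 ^ (M - ∑ j, e (Sum.inl j)) * c2 ^ (M - ∑ j, e (Sum.inr j)), ?_⟩
    ring
  have hpr : Prime (X (i, 0) : MvPolynomial (Fin N × Fin 3) K) := X_prime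
  have h7 : (X (i, 0) : MvPolynomial (Fin N × Fin 3) K) ^ m ∣
      (c1 ^ M * c2 ^ M) * TRANS_Fh u v F := by
    rw [key]; exact Dvd.dvd.mul_left hΨd _
  refine hpr.pow_dvd_of_dvd_mul_left _ ?_ h7
  rintro ⟨q, hq⟩
  have := congrArg (eval x0) hq
  rw [map_mul, map_pow, map_pow, hc1x, hc2x, map_mul, eval_X] at this
  simp [hx0] at this

theorem TRANS_eval_L (c : Fin 3) (u : Fin N → Fin r → K) (j : Fin r) (x : Fin N × Fin 3 → K)
    (hx : ∀ i, x (i, 0) = 1) : eval x (TRANS_L c u j) = ∑ k, x (k, c) * u k j := by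
  unfold TRANS_L
  rw [map_sum]
  apply Finset.sum_congr rfl
  intro k _
  rw [map_mul, map_mul, map_prod, eval_X, eval_C]
  have : ∏ l ∈ Finset.univ.erase k, eval x (X (l, 0) : MvPolynomial (Fin N × Fin 3) K) = 1 := by
    apply Finset.prod_eq_one
    intro l _
    rw [eval_X, hx]
  rw [this, one_mul]

theorem TRANS_Fh_ne [Infinite K] (u : Fin N → Fin r → K) (v : Fin N → Fin s → K)
    (hu : Submodule.span K (Set.range u) = ⊤) (hv : Submodule.span K (Set.range v) = ⊤)
    (F : MvPolynomial (Fin r ⊕ Fin s) K) (hF : F ≠ 0) : TRANS_Fh u v F ≠ 0 := by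
  obtain ⟨p, hp⟩ := TRANS_exists_eval_ne F hF
  have h1 : (fun j => p (Sum.inl j)) ∈ Submodule.span K (Set.range u) := by rw [hu]; trivial
  have h2 : (fun j => p (Sum.inr j)) ∈ Submodule.span K (Set.range v) := by rw [hv]; trivial
  obtain ⟨A, hA⟩ := (Submodule.mem_span_range_iff_exists_fun K).mp h1
  obtain ⟨B, hB⟩ := (Submodule.mem_span_range_iff_exists_fun K).mp h2
  intro h0
  have h3 := congrArg (eval (trip (fun _ => (1 : K)) A B)) h0
  unfold TRANS_Fh at h3
  rw [TRANS_ev, map_zero] at h3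
  apply hp
  rw [← h3]
  congr 2
  funext q
  rcases q with j | j
  · simp only [Sum.elim_inl]
    rw [TRANS_eval_L _ _ _ _ (fun i => by simp [trip])]
    have := congrFun hA j
    simpa [trip] using this.symm
  · simp only [Sum.elim_inr]
    rw [TRANS_eval_L _ _ _ _ (fun i => by simp [trip])]
    have := congrFun hB j
    simpa [trip] using this.symm

/-- the shift of the `c0`-th slot by `g x` -/
noncomputable def TRANS_S (c0 : Fin 3) (g : Fin N → K) :
    MvPolynomial (Fin N × Fin 3) K →ₐ[K] MvPolynomial (Fin N × Fin 3) K :=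
  aeval (fun q => if q.2 = c0 then X q + C (g q.1) * X (q.1, 0) else X q)

theorem TRANS_S_X0 (c0 : Fin 3) (hc0 : c0 ≠ 0) (g : Fin N → K) (i : Fin N) :
    TRANS_S c0 g (X (i, 0)) = X (i, 0) := by
  unfold TRANS_S
  rw [aeval_X, if_neg (fun h => hc0 h.symm)]

theorem TRANS_S_L (c0 : Fin 3) (hc0 : c0 ≠ 0) (g : Fin N → K) (c : Fin 3)
    (u : Fin N → Fin r → K) (h : c = c0 → ∑ k, g k • u k = 0) (j : Fin r) :
    TRANS_S c0 g (TRANS_L c u j) = TRANS_L c u j := by
  unfold TRANS_L
  rw [map_sum]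
  have h1 : ∀ k : Fin N, TRANS_S c0 g ((∏ l ∈ Finset.univ.erase k, X (l, 0)) * X (k, c) *
      C (u k j)) = (∏ l ∈ Finset.univ.erase k, X (l, 0)) * X (k, c) * C (u k j) +
      if c = c0 then (∏ l, X (l, 0)) * C (g k * u k j) else 0 := by
    intro k
    rw [map_mul, map_mul, map_prod]
    have h2 : ∏ l ∈ Finset.univ.erase k, TRANS_S c0 g (X (l, 0)) =
        (∏ l ∈ Finset.univ.erase k, X (l, 0) : MvPolynomial (Fin N × Fin 3) K) :=
      Finset.prod_congr rfl fun l _ => TRANS_S_X0 c0 hc0 g l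
    have h3 : TRANS_S c0 g (C (u k j)) = C (u k j) := by
      unfold TRANS_S
      exact algHom_C _ _
    rw [h2, h3]
    have h4 : TRANS_S c0 g (X (k, c)) = X (k, c) + if c = c0 then C (g k) * X (k, 0) else 0 := by
      unfold TRANS_S
      rw [aeval_X]
      split_ifs <;> simp_all
    rw [h4]
    split_ifs with hc
    · rw [← Finset.mul_prod_erase Finset.univ (fun l => (X (l, 0) : MvPolynomial (Fin N × Fin 3) K))
        (Finset.mem_univ k), C_mul]
      ring
    · ring
  rw [Finset.sum_congr rfl fun k _ => h1 k, Finset.sum_add_distrib]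
  have h5 : ∑ k, (if c = c0 then (∏ l, X (l, 0) : MvPolynomial (Fin N × Fin 3) K) *
      C (g k * u k j) else 0) = 0 := by
    by_cases hc : c = c0
    · simp only [if_pos hc]
      rw [← Finset.mul_sum, ← map_sum]
      have h6 := congrFun (h hc) j
      simp only [Finset.sum_apply, Pi.smul_apply, smul_eq_mul, Pi.zero_apply] at h6
      rw [h6]; simp
    · simp [hc]
  rw [h5, add_zero]

theorem TRANS_S_Fh (c0 : Fin 3) (hc0 : c0 ≠ 0) (g : Fin N → K)
    (u : Fin N → Fin r → K) (v : Fin N → Fin s → K) (h : 1 = c0 → ∑ k, g k • u k = 0)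
    (h' : 2 = c0 → ∑ k, g k • v k = 0) (F : MvPolynomial (Fin r ⊕ Fin s) K) :
    TRANS_S c0 g (TRANS_Fh u v F) = TRANS_Fh u v F := by
  unfold TRANS_Fh
  have h1 : TRANS_S c0 g ((aeval (Sum.elim (TRANS_L 1 u) (TRANS_L 2 v))) F) =
    ((TRANS_S c0 g).comp (aeval (Sum.elim (TRANS_L 1 u) (TRANS_L 2 v)))) F := rfl
  rw [h1, comp_aeval]
  congr 2
  funext q
  rcases q with j | j
  · exact TRANS_S_L c0 hc0 g 1 u h j
  · exact TRANS_S_L c0 hc0 g 2 v h' j

theorem TRANS_weight (ω : Fin N × Fin 3 → ℕ) (d : Fin N × Fin 3 →₀ ℕ) :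
    Finsupp.weight ω d = ∑ i, (d (i, 0) * ω (i, 0) + d (i, 1) * ω (i, 1) + d (i, 2) * ω (i, 2)) := by
  rw [Finsupp.weight_apply, Finsupp.sum_fintype _ _ (by simp), Fintype.sum_prod_type]
  apply Finset.sum_congr rfl
  intro i _
  rw [Fin.sum_univ_three]
  simp

end

theorem st_TRANS : ST_TRANS.{w} := by
  classical
  intro K _ _ N r s t u v hu htu hv hsu hsv F a b m hF hb hm
  set Mx : Fin N × Fin 3 →₀ ℕ := ∑ i, Finsupp.single (i, (0 : Fin 3)) (m i) with hMx
  have hMx0 : ∀ i, Mx (i, 0) = m i := by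
    intro i
    rw [hMx, Finsupp.finsetSum_apply, Finset.sum_eq_single i]
    · simp
    · intro j _ hj
      rw [Finsupp.single_apply, if_neg]
      intro h
      exact hj (congrArg Prod.fst h)
    · simp
  have hMxc : ∀ i (c : Fin 3), c ≠ 0 → Mx (i, c) = 0 := by
    intro i c hc
    rw [hMx, Finsupp.finsetSum_apply]
    apply Finset.sum_eq_zero
    intro j _
    rw [Finsupp.single_apply, if_neg]
    intro h
    exact hc (congrArg Prod.snd h).symm
  have hprod : (∏ i, (X (i, 0) : MvPolynomial (Fin N × Fin 3) K) ^ m i) = monomial Mx 1 := by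
    rw [hMx, monomial_sum_one]
    apply Finset.prod_congr rfl
    intro i _
    rw [X_pow_eq_monomial]
  have hdvd : (∏ i, (X (i, 0) : MvPolynomial (Fin N × Fin 3) K) ^ m i) ∣ TRANS_Fh u v F := by
    apply Finset.prod_dvd_of_isRelPrime
    · intro i _ j _ hij
      apply IsRelPrime.pow
      have hpi : Prime (X (i, 0) : MvPolynomial (Fin N × Fin 3) K) := X_prime
      rw [hpi.irreducible.isRelPrime_iff_not_dvd]
      rintro ⟨q, hq⟩
      have := congrArg (eval (fun q : Fin N × Fin 3 => if q = (i, 0) then (0 : K) else 1)) hq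
      rw [map_mul, eval_X, eval_X] at this
      simp [Ne.symm hij] at this
    · intro i _
      exact TRANS_dvd u v F a b hb i (m i) (hm i)
  obtain ⟨f, hf⟩ := hdvd
  rw [hprod] at hf
  have hFh : TRANS_Fh u v F ≠ 0 := TRANS_Fh_ne u v hsu hsv F hF
  have hf0 : f ≠ 0 := by
    rintro rfl
    rw [mul_zero] at hf
    exact hFh hf
  have hsupp : ∀ d ∈ f.support, coeff (Mx + d) (TRANS_Fh u v F) ≠ 0 := by
    intro d hd
    rw [hf, coeff_monomial_mul, one_mul]
    simpa using hd
  have hwi : ∀ i, IsWeightedHomogeneous (fun q : Fin N × Fin 3 => if q.1 = i then 1 else 0)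
      (TRANS_Fh u v F) (a * 1 + b * 1) := by
    intro i
    have hL : ∀ (c : Fin 3) (k : Fin N), ∑ l ∈ Finset.univ.erase k,
        (if ((l, (0 : Fin 3)) : Fin N × Fin 3).1 = i then 1 else 0) +
        (if ((k, c) : Fin N × Fin 3).1 = i then 1 else 0) = 1 := by
      intro c k
      have := Finset.sum_erase_add Finset.univ
        (fun l : Fin N => if l = i then 1 else 0) (Finset.mem_univ k)
      simp only at this ⊢
      rw [this]
      simp
    exact TRANS_Fh_wh _ u v 1 1 (TRANS_L_wh _ 1 u 1 (hL 1)) (TRANS_L_wh _ 2 v 1 (hL 2)) F a b hb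
  have hwa : IsWeightedHomogeneous (fun q : Fin N × Fin 3 => if q.2 = 1 then 1 else 0)
      (TRANS_Fh u v F) (a * 1 + b * 0) := by
    refine TRANS_Fh_wh _ u v 1 0 (TRANS_L_wh _ 1 u 1 fun k => ?_)
      (TRANS_L_wh _ 2 v 0 fun k => ?_) F a b hb
    · simp
    · simp
  have hwb : IsWeightedHomogeneous (fun q : Fin N × Fin 3 => if q.2 = 2 then 1 else 0)
      (TRANS_Fh u v F) (a * 0 + b * 1) := by
    refine TRANS_Fh_wh _ u v 0 1 (TRANS_L_wh _ 1 u 0 fun k => ?_)
      (TRANS_L_wh _ 2 v 1 fun k => ?_) F a b hb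
    · simp
    · simp
  have hdeg : ∀ d ∈ f.support, ∀ i, d (i, 0) + d (i, 1) + d (i, 2) + m i = a + b := by
    intro d hd i
    have h1 := hwi i (hsupp d hd)
    rw [TRANS_weight, Finset.sum_eq_single i] at h1
    · simp only [Finsupp.add_apply, hMx0, hMxc i 1 (by decide), hMxc i 2 (by decide),
        if_true, mul_one, zero_add] at h1
      omega
    · intro j _ hj
      simp [hj]
    · simp
  obtain ⟨d0, hd0⟩ : ∃ d, d ∈ f.support := by
    by_contra h
    push Not at h
    exact hf0 (by rw [← support_eq_empty]; exact Finset.eq_empty_of_forall_notMem h)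
  refine ⟨fun i => a + b - m i, f, fun i => ?_, hf0, fun d hd i => ?_, fun d hd => ?_,
    fun d hd => ?_, fun x y z l m' => ?_, fun x y z l => ?_⟩
  · have := hdeg d0 hd0 i
    show a + b - m i + m i = a + b
    omega
  · have := hdeg d hd i
    show _ = a + b - m i
    omega
  · have h1 := hwa (hsupp d hd)
    rw [TRANS_weight] at h1
    simpa [Finsupp.add_apply, hMxc] using h1
  · have h1 := hwb (hsupp d hd)
    rw [TRANS_weight] at h1
    simpa [Finsupp.add_apply, hMxc] using h1
  · have h1 : TRANS_S 1 (fun i => l + m' * t i) f = f := by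
      have h2 := TRANS_S_Fh 1 (by decide) (fun i => l + m' * t i) u v (fun _ => by
        simp only [add_smul, Finset.sum_add_distrib, ← Finset.smul_sum, mul_smul, hu, htu,
          smul_zero, add_zero]) (fun h => absurd h (by decide)) F
      rw [hf, map_mul, ← hprod, map_prod] at h2
      have h3 : ∏ i, TRANS_S 1 (fun i => l + m' * t i)
          ((X (i, 0) : MvPolynomial (Fin N × Fin 3) K) ^ m i) =
          ∏ i, (X (i, 0) : MvPolynomial (Fin N × Fin 3) K) ^ m i := by
        apply Finset.prod_congr rfl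
        intro i _
        rw [map_pow, TRANS_S_X0 1 (by decide)]
      rw [h3] at h2
      refine mul_left_cancel₀ ?_ h2
      rw [hprod]
      simp
    have h4 := congrArg (eval (trip x y z)) h1
    unfold TRANS_S at h4
    rw [TRANS_ev] at h4
    rw [← h4]
    congr 2
    funext q
    obtain ⟨i, c⟩ := q
    fin_cases c <;> simp [trip]
  · have h1 : TRANS_S 2 (fun _ => l) f = f := by
      have h2 := TRANS_S_Fh 2 (by decide) (fun _ => l) u v (fun h => absurd h (by decide))
        (fun _ => by simp only [← Finset.smul_sum, hv, smul_zero]) F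
      rw [hf, map_mul, ← hprod, map_prod] at h2
      have h3 : ∏ i, TRANS_S 2 (fun _ => l)
          ((X (i, 0) : MvPolynomial (Fin N × Fin 3) K) ^ m i) =
          ∏ i, (X (i, 0) : MvPolynomial (Fin N × Fin 3) K) ^ m i := by
        apply Finset.prod_congr rfl
        intro i _
        rw [map_pow, TRANS_S_X0 2 (by decide)]
      rw [h3] at h2
      refine mul_left_cancel₀ ?_ h2
      rw [hprod]
      simp
    have h4 := congrArg (eval (trip x y z)) h1
    unfold TRANS_S at h4
    rw [TRANS_ev] at h4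
    rw [← h4]
    congr 2
    funext q
    obtain ⟨i, c⟩ := q
    fin_cases c <;> simp [trip]

end Pool.Agent.Helper75.EC
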