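import Pool.Agent.Helper75.EC.Final
import Pool.Agent.Helper75.EC.BP
import Pool.Agent.Helper75.EC.EFFC
import Pool.Agent.Helper75.EC.SCALE
import Pool.Agent.Helper75.EC.SETUP
import Pool.Agent.Helper75.EC.TRANS
import Pool.Agent.Helper17.EC.MOB
import Pool.Agent.Helper17.EC.MUL
import Pool.Agent.Helper27.EC.GEN
import Pool.Agent.Helper27.EC.INEQ
import Pool.Agent.Helper27.EC.MAJ
import Pool.Agent.Helper30.EC.SEC1
import Pool.Agent.Helper30.EC.SEC2
import Pool.Agent.Helper30.EC.BV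
import Pool.Agent.Helper41.EC.EXT
import Pool.Agent.Helper41.EC.LO
import Pool.Agent.Helper41.EC.UP
import Pool.Agent.Helper56.EC.LINE
import Pool.Agent.Helper56.EC.DEG0
import Pool.Agent.Helper56.EC.RA
import Pool.Agent.Helper27.EC.RB
import Pool.Agent.Helper57.EC.FRAME
import Pool.Agent.Helper57.EC.POLY
import Pool.Agent.Helper63.EC.BSJ
import Pool.Agent.Helper63.EC.PULL
import Pool.Agent.Helper96.EC.BC

/-!
# The effective cone of the blow-up of `ℙⁿ × ℙⁿ⁺¹` in `n + 3` points: assembly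
-/

universe w

namespace Pool.Agent.Helper75.EC

open Pool.Agent

theorem assembled (hRA : ST_RA.{w}) (hRB : ST_RB.{w}) (K : Type w) [Field K] [IsAlgClosed K]
    (n : ℕ) (u : Fin (n + 3) → Fin (n + 1) → K) (v : Fin (n + 3) → Fin (n + 2) → K)
    (hu : ∀ s : Finset (Fin (n + 3)), s.card = n + 1 → LinearIndependent K fun i : s => u i)
    (hv : ∀ s : Finset (Fin (n + 3)), s.card = n + 2 → LinearIndependent K fun i : s => v i) :
    Eff u v = {x | ∃ y ∈ Mov u v, ∃ z ∈ Submodule.span NNReal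
      (bsjClasses u v ∪ exceptional n ∪ pulledBack u v), x = y + z} := by
  have hGEN := Helper27.EC.st_GENLIN.{w}
  have hEFFC : ST_EFFC.{w} := st_EFFC (Helper56.EC.st_W Helper56.EC.st_LB)
    (Helper56.EC.st_T2 Helper56.EC.st_LB) (Helper56.EC.st_T4 Helper56.EC.st_LB)
    (Helper27.EC.st_IL hRA (Helper27.EC.st_GL hGEN))
    (Helper27.EC.st_IA hRA (Helper27.EC.st_GA hGEN))
    (Helper27.EC.st_IB hRB (Helper27.EC.st_GB hGEN)) st_TRANS st_SCALE st_SETUP
  have hPOLY : ST_POLY := Helper57.EC.st_POLY Helper27.EC.st_MAJ Helper41.EC.st_UP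
    Helper41.EC.st_LO
  have hSEC1 : ST_SEC1.{w} := Helper30.EC.st_SEC1
  have hEXT : ST_EXT := Helper41.EC.st_EXT
  exact final hPOLY hEFFC hEXT hSEC1 Helper30.EC.st_SEC2 Helper17.EC.st_MOB
    (Helper63.EC.st_PULL1 hSEC1 hEXT) (Helper63.EC.st_PULL2 hSEC1 hEXT)
    (Helper63.EC.st_BSJ Helper30.EC.st_BV st_BP Helper96.EC.st_BC hSEC1 Helper17.EC.st_MUL2
      Helper17.EC.st_MUL3 Helper17.EC.st_MUL4 hEXT)
    (Helper57.EC.st_FRAME st_SETUP) K n u v hu hv

theorem assembled_all (K : Type w) [Field K] [IsAlgClosed K]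
    (n : ℕ) (u : Fin (n + 3) → Fin (n + 1) → K) (v : Fin (n + 3) → Fin (n + 2) → K)
    (hu : ∀ s : Finset (Fin (n + 3)), s.card = n + 1 → LinearIndependent K fun i : s => u i)
    (hv : ∀ s : Finset (Fin (n + 3)), s.card = n + 2 → LinearIndependent K fun i : s => v i) :
    Eff u v = {x | ∃ y ∈ Mov u v, ∃ z ∈ Submodule.span NNReal
      (bsjClasses u v ∪ exceptional n ∪ pulledBack u v), x = y + z} := by
  have hD0 := Helper56.EC.st_D0.{w} Helper56.EC.st_LB
  have hDA := Helper56.EC.st_DA.{w} hD0 Helper56.EC.st_DENS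
  have hDB := Helper56.EC.st_DB.{w} hDA Helper56.EC.st_DENS
  exact assembled (Helper56.EC.st_RA hDA Helper56.EC.st_DIAG Helper56.EC.st_DENS)
    (Helper27.EC.st_RB hDB Helper56.EC.st_DIAG Helper56.EC.st_DENS) K n u v hu hv

end Pool.Agent.Helper75.EC
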