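import Mathlib

/-!
# Effective and movable cones of the blow-up of `ℙⁿ × ℙⁿ⁺¹` in `n + 3` points

Everything is expressed by bihomogeneous polynomials with prescribed multiplicities.
-/

open MvPolynomial

namespace Pool.Agent.Helper75.EC

/-- `F` vanishes to order at least `m` at the point `p` of affine space: every monomial of the
Taylor expansion of `F` at `p` has total degree at least `m`. -/
def OrdGe {K : Type*} [Field K] {σ : Type*} (F : MvPolynomial σ K) (p : σ → K) (m : ℕ) : Prop :=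
  ∀ d ∈ (aeval (fun j => (X j + C (p j) : MvPolynomial σ K)) F).support, m ≤ d.degree

/-- `F` is bihomogeneous of bidegree `(a, b)` in the two groups of variables. -/
def IsBihom {K : Type*} [Field K] {ι κ : Type*} [Fintype ι] [Fintype κ]
    (F : MvPolynomial (ι ⊕ κ) K) (a b : ℕ) : Prop :=
  ∀ d ∈ F.support, ∑ j, d (Sum.inl j) = a ∧ ∑ j, d (Sum.inr j) = b

/-- The real Neron-Severi space of `X`: `(a, b, m)` stands for `a H₁ + b H₂ - ∑ mᵢ Eᵢ`. -/
abbrev Cls (n : ℕ) : Type := ℝ × ℝ × (Fin (n + 3) → ℝ)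

/-- The integral class `a H₁ + b H₂ - ∑ mᵢ Eᵢ`. -/
def cls {n : ℕ} (a b : ℕ) (m : Fin (n + 3) → ℤ) : Cls n := ((a : ℝ), (b : ℝ), fun i => (m i : ℝ))

section

variable {K : Type*} [Field K] {n : ℕ}

/-- `F` is a section of the line bundle `a H₁ + b H₂ - ∑ mᵢ Eᵢ` on the blow-up of
`ℙⁿ × ℙⁿ⁺¹` at the points `(uᵢ, vᵢ)`. -/
def IsSection (u : Fin (n + 3) → Fin (n + 1) → K) (v : Fin (n + 3) → Fin (n + 2) → K)
    (a b : ℕ) (m : Fin (n + 3) → ℤ) (F : MvPolynomial (Fin (n + 1) ⊕ Fin (n + 2)) K) : Prop :=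
  IsBihom F a b ∧ ∀ i, OrdGe F (Sum.elim (u i) (v i)) (m i).toNat

/-- The classes of effective divisors. -/
def effClasses (u : Fin (n + 3) → Fin (n + 1) → K) (v : Fin (n + 3) → Fin (n + 2) → K) :
    Set (Cls n) :=
  {x | ∃ (a b : ℕ) (m : Fin (n + 3) → ℤ), (∃ F, F ≠ 0 ∧ IsSection u v a b m F) ∧ x = cls a b m}

/-- The divisor class `a H₁ + b H₂ - ∑ mᵢ Eᵢ` is movable: its linear system has no fixed
component, neither the strict transform of a hypersurface nor an exceptional divisor. -/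
def IsMovable (u : Fin (n + 3) → Fin (n + 1) → K) (v : Fin (n + 3) → Fin (n + 2) → K)
    (a b : ℕ) (m : Fin (n + 3) → ℤ) : Prop :=
  (∀ P : MvPolynomial (Fin (n + 1) ⊕ Fin (n + 2)) K, Irreducible P →
      ∃ F, IsSection u v a b m F ∧ ¬ P ∣ F) ∧
    ∀ i, 0 ≤ m i ∧ ∃ F, IsSection u v a b m F ∧ ¬ OrdGe F (Sum.elim (u i) (v i)) ((m i).toNat + 1)

/-- The classes of movable divisors. -/
def movClasses (u : Fin (n + 3) → Fin (n + 1) → K) (v : Fin (n + 3) → Fin (n + 2) → K) :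
    Set (Cls n) :=
  {x | ∃ (a b : ℕ) (m : Fin (n + 3) → ℤ), IsMovable u v a b m ∧ x = cls a b m}

/-- The convex cone spanned by a set: all finite combinations with non-negative coefficients. -/
def coneHull {E : Type*} [AddCommGroup E] [Module ℝ E] (S : Set E) : Set E :=
  (Submodule.span NNReal S : Set E)

/-- The closed cone spanned by a set. -/
def closedCone {E : Type*} [AddCommGroup E] [Module ℝ E] [TopologicalSpace E] (S : Set E) :
    Set E :=
  closure (Submodule.span NNReal S : Set E)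

/-- `Eff(X)`. -/
def Eff (u : Fin (n + 3) → Fin (n + 1) → K) (v : Fin (n + 3) → Fin (n + 2) → K) : Set (Cls n) :=
  closedCone (effClasses u v)

/-- `Mov(X)`. -/
def Mov (u : Fin (n + 3) → Fin (n + 1) → K) (v : Fin (n + 3) → Fin (n + 2) → K) : Set (Cls n) :=
  closedCone (movClasses u v)

/-- The effective cone of `ℙʳ` blown up at the points `wᵢ`; `(d, m)` stands for
`d H - ∑ mᵢ Eᵢ`. -/
def EffP {r N : ℕ} (w : Fin N → Fin (r + 1) → K) : Set (ℝ × (Fin N → ℝ)) :=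
  closedCone {x | ∃ (d : ℕ) (m : Fin N → ℤ), (∃ G : MvPolynomial (Fin (r + 1)) K,
    G ≠ 0 ∧ G.IsHomogeneous d ∧ ∀ i, OrdGe G (w i) (m i).toNat) ∧ x = ((d : ℝ), fun i => (m i : ℝ))}

/-- `x` spans an extremal ray of the cone `C`. -/
def SpansExtremalRay {E : Type*} [AddCommGroup E] [Module ℝ E] (C : Set E) (x : E) : Prop :=
  x ∈ C ∧ x ≠ 0 ∧ ∀ y ∈ C, ∀ z ∈ C, y + z = x → ∃ c : ℝ, 0 ≤ c ∧ y = c • x

/-- Extremal classes pulled back from the two factors. -/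
def pulledBack (u : Fin (n + 3) → Fin (n + 1) → K) (v : Fin (n + 3) → Fin (n + 2) → K) :
    Set (Cls n) :=
  {x | ∃ (d : ℝ) (m : Fin (n + 3) → ℝ), SpansExtremalRay (EffP u) (d, m) ∧ x = (d, 0, m)} ∪
    {x | ∃ (d : ℝ) (m : Fin (n + 3) → ℝ), SpansExtremalRay (EffP v) (d, m) ∧ x = (0, d, m)}

/-- The exceptional classes `Eᵢ`. -/
def exceptional (n : ℕ) : Set (Cls n) :=
  {x | ∃ i : Fin (n + 3), x = (0, 0, -Pi.single i 1)}

/-- The vector `(s^d, s^(d-1) t, ..., t^d)`. -/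
def ver (d : ℕ) (s t : K) : Fin (d + 1) → K := fun j => s ^ (d - (j : ℕ)) * t ^ (j : ℕ)

/-- The matrices `A`, `B` define the rational curve
`(s : t) ↦ (A (sⁿ, ..., tⁿ), B (sⁿ⁺¹, ..., tⁿ⁺¹))` of bidegree `(n, n + 1)`,
and it passes through all the points `(uᵢ, vᵢ)`. -/
def IsCurve (u : Fin (n + 3) → Fin (n + 1) → K) (v : Fin (n + 3) → Fin (n + 2) → K)
    (A : Matrix (Fin (n + 1)) (Fin (n + 1)) K) (B : Matrix (Fin (n + 2)) (Fin (n + 2)) K) :
    Prop :=
  A.det ≠ 0 ∧ B.det ≠ 0 ∧ ∀ i, ∃ s t c c' : K, c ≠ 0 ∧ c' ≠ 0 ∧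
    A.mulVec (ver n s t) = c • u i ∧ B.mulVec (ver (n + 1) s t) = c' • v i

/-- The union, over `k`-tuples of distinct points `zⱼ` of the curve, of the bilinear spans of
`{pᵢ : i ∈ I} ∪ {z₁, ..., z_k}` (as a cone in the affine space of coordinates). -/
def joinSet (u : Fin (n + 3) → Fin (n + 1) → K) (v : Fin (n + 3) → Fin (n + 2) → K)
    (A : Matrix (Fin (n + 1)) (Fin (n + 1)) K) (B : Matrix (Fin (n + 2)) (Fin (n + 2)) K)
    (I : Finset (Fin (n + 3))) (k : ℕ) : Set (Fin (n + 1) ⊕ Fin (n + 2) → K) :=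
  {p | ∃ s t : Fin k → K, (∀ j, ¬ (s j = 0 ∧ t j = 0)) ∧
    (∀ j l, j ≠ l → s j * t l ≠ s l * t j) ∧
    (fun j => p (Sum.inl j)) ∈
      Submodule.span K (u '' I ∪ Set.range fun j => A.mulVec (ver n (s j) (t j))) ∧
    (fun j => p (Sum.inr j)) ∈
      Submodule.span K (v '' I ∪ Set.range fun j => B.mulVec (ver (n + 1) (s j) (t j)))}

/-- `F` is an irreducible equation of a BSJ divisor: the vanishing ideal of the union of
bilinear spans is generated by `F`. -/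
def IsBSJ (u : Fin (n + 3) → Fin (n + 1) → K) (v : Fin (n + 3) → Fin (n + 2) → K)
    (F : MvPolynomial (Fin (n + 1) ⊕ Fin (n + 2)) K) : Prop :=
  Irreducible F ∧ ∃ A B, IsCurve u v A B ∧ ∃ (I : Finset (Fin (n + 3))) (k : ℕ), 1 ≤ k ∧
    3 * k + 2 * I.card = 2 * n + 2 ∧
    ∀ G : MvPolynomial (Fin (n + 1) ⊕ Fin (n + 2)) K,
      (∀ p ∈ joinSet u v A B I k, eval p G = 0) ↔ F ∣ G

/-- The classes of the BSJ divisors. -/
def bsjClasses (u : Fin (n + 3) → Fin (n + 1) → K) (v : Fin (n + 3) → Fin (n + 2) → K) :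
    Set (Cls n) :=
  {x | ∃ (F : MvPolynomial (Fin (n + 1) ⊕ Fin (n + 2)) K) (a b : ℕ) (m : Fin (n + 3) → ℕ),
    IsBSJ u v F ∧ IsBihom F a b ∧
    (∀ i, OrdGe F (Sum.elim (u i) (v i)) (m i) ∧ ¬ OrdGe F (Sum.elim (u i) (v i)) (m i + 1)) ∧
    x = cls a b fun i => (m i : ℤ)}

end

end Pool.Agent.Helper75.EC
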