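import Pool.Agent.Helper75.EC.Stmts

open MvPolynomial

universe w

namespace Pool.Agent.Helper75.EC

theorem FINAL_ordGe_rename {K : Type*} [Field K] {σ τ : Type*} (e : σ → τ)
    (he : Function.Injective e) (G : MvPolynomial σ K) (p : σ → K) (q : τ → K)
    (hpq : ∀ j, q (e j) = p j) (m : ℕ) (h : OrdGe G p m) : OrdGe (rename e G) q m := by
  classical
  intro d hd
  have h1 : (aeval (fun j => (X j + C (q j) : MvPolynomial τ K))) (rename e G) =
      rename e (aeval (fun j => (X j + C (p j) : MvPolynomial σ K)) G) := by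
    rw [aeval_rename]
    have h2 : (rename e : MvPolynomial σ K →ₐ[K] MvPolynomial τ K)
        (aeval (fun j => (X j + C (p j) : MvPolynomial σ K)) G) =
        ((rename e).comp (aeval (fun j => (X j + C (p j) : MvPolynomial σ K)))) G := rfl
    rw [h2]
    congr 1
    apply MvPolynomial.algHom_ext
    intro j
    simp [hpq]
  rw [h1] at hd
  rw [support_rename_of_injective he] at hd
  obtain ⟨d', hd', rfl⟩ := Finset.mem_image.mp hd
  have := h d' hd'
  rw [Finsupp.degree_mapDomain]
  exact this

theorem FINAL_bihom_inl {K : Type*} [Field K] {r s : ℕ} (G : MvPolynomial (Fin r) K) (d : ℕ)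
    (hG : G.IsHomogeneous d) :
    IsBihom (rename (Sum.inl : Fin r → Fin r ⊕ Fin s) G) d 0 := by
  intro e he
  rw [support_rename_of_injective Sum.inl_injective] at he
  obtain ⟨d', hd', rfl⟩ := Finset.mem_image.mp he
  have h1 := hG (by simpa using hd' : coeff d' G ≠ 0)
  constructor
  · rw [← h1, Finsupp.weight_apply, Finsupp.sum_fintype _ _ (by simp)]
    apply Finset.sum_congr rfl
    intro j _
    rw [Finsupp.mapDomain_apply Sum.inl_injective]
    simp
  · apply Finset.sum_eq_zero
    intro j _
    apply Finsupp.mapDomain_of_notMem_range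
    simp

theorem FINAL_bihom_inr {K : Type*} [Field K] {r s : ℕ} (G : MvPolynomial (Fin s) K) (d : ℕ)
    (hG : G.IsHomogeneous d) :
    IsBihom (rename (Sum.inr : Fin s → Fin r ⊕ Fin s) G) 0 d := by
  intro e he
  rw [support_rename_of_injective Sum.inr_injective] at he
  obtain ⟨d', hd', rfl⟩ := Finset.mem_image.mp he
  have h1 := hG (by simpa using hd' : coeff d' G ≠ 0)
  constructor
  · apply Finset.sum_eq_zero
    intro j _
    apply Finsupp.mapDomain_of_notMem_range
    simp
  · rw [← h1, Finsupp.weight_apply, Finsupp.sum_fintype _ _ (by simp)]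
    apply Finset.sum_congr rfl
    intro j _
    rw [Finsupp.mapDomain_apply Sum.inr_injective]
    simp

section

variable {K : Type*} [Field K] {n : ℕ}

/-- `Eff` as a submodule over the non-negative reals. -/
noncomputable def effSub (u : Fin (n + 3) → Fin (n + 1) → K)
    (v : Fin (n + 3) → Fin (n + 2) → K) : Submodule NNReal (Cls n) :=
  (Submodule.span NNReal (effClasses u v)).topologicalClosure

/-- `Mov` as a submodule over the non-negative reals. -/
noncomputable def movSub (u : Fin (n + 3) → Fin (n + 1) → K)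
    (v : Fin (n + 3) → Fin (n + 2) → K) : Submodule NNReal (Cls n) :=
  (Submodule.span NNReal (movClasses u v)).topologicalClosure

theorem coe_effSub (u : Fin (n + 3) → Fin (n + 1) → K) (v : Fin (n + 3) → Fin (n + 2) → K) :
    (effSub u v : Set (Cls n)) = Eff u v := rfl

theorem coe_movSub (u : Fin (n + 3) → Fin (n + 1) → K) (v : Fin (n + 3) → Fin (n + 2) → K) :
    (movSub u v : Set (Cls n)) = Mov u v := rfl

theorem movClasses_sub (u : Fin (n + 3) → Fin (n + 1) → K)
    (v : Fin (n + 3) → Fin (n + 2) → K) : movClasses u v ⊆ effClasses u v := by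
  rintro x ⟨a, b, m, ⟨_, h2⟩, rfl⟩
  obtain ⟨_, F, hF, hF'⟩ := h2 0
  refine ⟨a, b, m, ⟨F, ?_, hF⟩, rfl⟩
  rintro rfl
  apply hF'
  intro d hd
  simp at hd

theorem bsjClasses_sub (u : Fin (n + 3) → Fin (n + 1) → K)
    (v : Fin (n + 3) → Fin (n + 2) → K) : bsjClasses u v ⊆ effClasses u v := by
  rintro x ⟨F, a, b, m, hF, hb, hm, rfl⟩
  refine ⟨a, b, _, ⟨F, hF.1.ne_zero, hb, fun i => ?_⟩, rfl⟩
  simpa using (hm i).1

theorem exceptional_sub (u : Fin (n + 3) → Fin (n + 1) → K)
    (v : Fin (n + 3) → Fin (n + 2) → K) : exceptional n ⊆ effClasses u v := by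
  classical
  rintro x ⟨i, rfl⟩
  refine ⟨0, 0, fun j => -(Pi.single i 1 : Fin (n + 3) → ℤ) j, ⟨1, one_ne_zero, ?_, fun j => ?_⟩, ?_⟩
  · intro d hd
    have : d = 0 := by
      by_contra h
      rw [mem_support_iff, coeff_one, if_neg (fun h' => h h'.symm)] at hd
      exact hd rfl
    subst this
    simp
  · intro d _
    have : (-(Pi.single i 1 : Fin (n + 3) → ℤ) j).toNat = 0 := by
      by_cases h : j = i
      · subst h; simp
      · simp [Pi.single_eq_of_ne h]
    rw [this]
    exact Nat.zero_le _
  · simp only [cls, Nat.cast_zero, Prod.mk.injEq, true_and]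
    funext j
    by_cases h : j = i
    · subst h; simp
    · simp [Pi.single_eq_of_ne h]

theorem pulledBack_sub (u : Fin (n + 3) → Fin (n + 1) → K)
    (v : Fin (n + 3) → Fin (n + 2) → K) : pulledBack u v ⊆ Eff u v := by
  rintro x (⟨d, m, h, rfl⟩ | ⟨d, m, h, rfl⟩)
  · have h1 := h.1
    let L : (ℝ × (Fin (n + 3) → ℝ)) →ₗ[NNReal] Cls n :=
      { toFun := fun y => (y.1, 0, y.2)
        map_add' := by intro y z; simp
        map_smul' := by intro c y; simp }
    have hL : Continuous L := by
      change Continuous fun y : ℝ × (Fin (n + 3) → ℝ) => ((y.1, 0, y.2) : Cls n)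
      fun_prop
    have h2 : L (d, m) ∈ closure (L '' (Submodule.span NNReal {x | ∃ (d : ℕ)
        (m : Fin (n + 3) → ℤ), (∃ G : MvPolynomial (Fin (n + 1)) K,
        G ≠ 0 ∧ G.IsHomogeneous d ∧ ∀ i, OrdGe G (u i) (m i).toNat) ∧
        x = ((d : ℝ), fun i => (m i : ℝ))} : Set (ℝ × (Fin (n + 3) → ℝ)))) :=
      image_closure_subset_closure_image hL ⟨(d, m), h1, rfl⟩
    refine closure_mono ?_ h2
    rw [← Submodule.map_coe, Submodule.map_span]
    apply Submodule.span_mono
    rintro _ ⟨_, ⟨d, m, ⟨G, hG, hGh, hGm⟩, rfl⟩, rfl⟩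
    refine ⟨d, 0, m, ⟨rename Sum.inl G, ?_, FINAL_bihom_inl G d hGh, fun i => ?_⟩, ?_⟩
    · intro h0
      apply hG
      exact rename_injective _ Sum.inl_injective (by rw [h0, map_zero])
    · exact FINAL_ordGe_rename Sum.inl Sum.inl_injective G (u i) _ (fun j => rfl) _ (hGm i)
    · simp [L, cls]
  · have h1 := h.1
    let L : (ℝ × (Fin (n + 3) → ℝ)) →ₗ[NNReal] Cls n :=
      { toFun := fun y => (0, y.1, y.2)
        map_add' := by intro y z; simp; rfl
        map_smul' := by intro c y; simp; rfl }
    have hL : Continuous L := by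
      change Continuous fun y : ℝ × (Fin (n + 3) → ℝ) => ((0, y.1, y.2) : Cls n)
      fun_prop
    have h2 : L (d, m) ∈ closure (L '' (Submodule.span NNReal {x | ∃ (d : ℕ)
        (m : Fin (n + 3) → ℤ), (∃ G : MvPolynomial (Fin (n + 1 + 1)) K,
        G ≠ 0 ∧ G.IsHomogeneous d ∧ ∀ i, OrdGe G (v i) (m i).toNat) ∧
        x = ((d : ℝ), fun i => (m i : ℝ))} : Set (ℝ × (Fin (n + 3) → ℝ)))) :=
      image_closure_subset_closure_image hL ⟨(d, m), h1, rfl⟩
    refine closure_mono ?_ h2
    rw [← Submodule.map_coe, Submodule.map_span]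
    apply Submodule.span_mono
    rintro _ ⟨_, ⟨d, m, ⟨G, hG, hGh, hGm⟩, rfl⟩, rfl⟩
    refine ⟨0, d, m, ⟨rename Sum.inr G, ?_, FINAL_bihom_inr G d hGh, fun i => ?_⟩, ?_⟩
    · intro h0
      apply hG
      exact rename_injective _ Sum.inr_injective (by rw [h0, map_zero])
    · exact FINAL_ordGe_rename Sum.inr Sum.inr_injective G (v i) _ (fun j => rfl) _ (hGm i)
    · simp [L, cls]

theorem Dcls_eq_cls (α β : ℕ) (I : Finset (Fin (n + 3))) (h : 1 ≤ α + β) :
    (Dcls α β I : Cls n) =
      cls α β (fun i => ((α + β - 1 + if i ∈ I then 1 else 0 : ℕ) : ℤ)) := by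
  simp only [Dcls, cls, Prod.mk.injEq, true_and]
  funext i
  have : ((α + β - 1 : ℕ) : ℝ) = (α : ℝ) + β - 1 := by
    rw [Nat.cast_sub h]; push_cast; ring
  split_ifs <;> push_cast [this] <;> simp

end

theorem final (hPOLY : ST_POLY) (hEFFC : ST_EFFC.{w}) (hEXT : ST_EXT) (hSEC1 : ST_SEC1.{w})
    (hSEC2 : ST_SEC2.{w}) (hMOB : ST_MOB.{w}) (hP1 : ST_PULL1.{w}) (hP2 : ST_PULL2.{w})
    (hBSJ : ST_BSJ.{w}) (hFRAME : ST_FRAME.{w}) (K : Type w) [Field K] [IsAlgClosed K] (n : ℕ)
    (u : Fin (n + 3) → Fin (n + 1) → K) (v : Fin (n + 3) → Fin (n + 2) → K)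
    (hu : ∀ s : Finset (Fin (n + 3)), s.card = n + 1 → LinearIndependent K fun i : s => u i)
    (hv : ∀ s : Finset (Fin (n + 3)), s.card = n + 2 → LinearIndependent K fun i : s => v i) :
    Eff u v = {x | ∃ y ∈ Mov u v, ∃ z ∈ Submodule.span NNReal
      (bsjClasses u v ∪ exceptional n ∪ pulledBack u v), x = y + z} := by
  classical
  obtain ⟨t, MA, MB, hfr⟩ := hFRAME K n u v hu hv
  have hE : ∀ x ∈ Eff u v, InC x := hEFFC K n u v hu hv
  set Gs : Submodule NNReal (Cls n) := Submodule.span NNReal
      (bsjClasses u v ∪ exceptional n ∪ pulledBack u v) with hGs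
  have hGsE : Gs ≤ effSub u v := by
    rw [hGs, Submodule.span_le]
    rintro x ((hx | hx) | hx)
    · exact subset_closure (Submodule.subset_span (bsjClasses_sub u v hx))
    · exact subset_closure (Submodule.subset_span (exceptional_sub u v hx))
    · exact pulledBack_sub u v hx
  have hMvE : movSub u v ≤ effSub u v :=
    Submodule.topologicalClosure_mono (Submodule.span_mono (movClasses_sub u v))
  have hkey : vgens n ⊆ (movSub u v ⊔ Gs : Submodule NNReal (Cls n)) := by
    rintro x ⟨α, β, I, hI, hVT, rfl⟩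
    rcases Nat.eq_zero_or_pos α with rfl | hα
    · have hβ : β = 0 ∨ β = 1 := by have := hVT.1; omega
      rcases hβ with rfl | rfl
      · -- exceptional
        refine Submodule.mem_sup_right (Submodule.subset_span (Or.inl (Or.inr ?_)))
        have hcard : Iᶜ.card = 1 := by
          rw [Finset.card_compl, Fintype.card_fin]; omega
        obtain ⟨j, hj⟩ := Finset.card_eq_one.mp hcard
        refine ⟨j, ?_⟩
        simp only [Dcls, Nat.cast_zero, Prod.mk.injEq, true_and]
        funext i
        by_cases hij : i = j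
        · subst hij
          have : i ∉ I := by
            rw [← Finset.mem_compl, hj]; simp
          simp [this]
        · have : i ∈ I := by
            by_contra h
            rw [← Finset.mem_compl, hj] at h
            exact hij (Finset.mem_singleton.mp h)
          simp [this, Pi.single_eq_of_ne hij]
      · refine Submodule.mem_sup_right (Submodule.subset_span (Or.inr ?_))
        exact hP2 K n u v hE t MA MB hfr I (by omega)
    · rcases Nat.eq_zero_or_pos β with rfl | hβ
      · refine Submodule.mem_sup_right (Submodule.subset_span (Or.inr ?_))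
        exact hP1 K n u v hE t MA MB hfr α I (by omega) hα
      · rcases Nat.lt_or_ge α β with hlt | hle
        · have hβ' : β = α + 1 := by have := hVT.1; omega
          subst hβ'
          refine Submodule.mem_sup_right ?_
          refine Submodule.span_mono ?_ (hBSJ K n u v hE t MA MB hfr α I (by omega) hα)
          intro y hy
          exact Or.inl (Or.inl hy)
        · refine Submodule.mem_sup_left ?_
          apply subset_closure
          obtain ⟨g, g', hg, hg', hgd, hgd', hind⟩ :=
            hSEC2 K n u v t MA MB hfr α β I hI hβ hle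
          obtain ⟨h1, h2, h3⟩ := hSEC1 K n u v t MA MB hfr α β I hI hVT.1 (by omega) g hg hgd
          obtain ⟨h1', h2', h3'⟩ :=
            hSEC1 K n u v t MA MB hfr α β I hI hVT.1 (by omega) g' hg' hgd'
          rw [Dcls_eq_cls α β I (by omega)]
          refine hMOB K n u v α β (fun i => α + β - 1 + if i ∈ I then 1 else 0)
            (secM MA MB (rootP t I) g α β).det (secM MA MB (rootP t I) g' α β).det hα
            ⟨h2, fun i => ?_⟩ ⟨h2', fun i => ?_⟩ hind ?_
          · simpa only [Int.toNat_natCast] using h3 i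
          · simpa only [Int.toNat_natCast] using h3' i
          · intro x hx y hy s hs hxy
            have hx' : InC x := hE x (subset_closure (Submodule.subset_span hx))
            have hy' : InC y := hE y (subset_closure (Submodule.subset_span hy))
            rw [← Dcls_eq_cls α β I (by omega)] at hxy ⊢
            exact hEXT n α β I hI hVT x y hx' hy' s hs hxy
  ext x
  constructor
  · intro hx
    have h1 : x ∈ Submodule.span NNReal (vgens n) := hPOLY n x (hE x hx)
    have h2 : x ∈ movSub u v ⊔ Gs := (Submodule.span_le.mpr hkey) h1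
    obtain ⟨y, hy, z, hz, hyz⟩ := Submodule.mem_sup.mp h2
    exact ⟨y, hy, z, hz, hyz.symm⟩
  · rintro ⟨y, hy, z, hz, rfl⟩
    exact (effSub u v).add_mem (hMvE hy) (hGsE hz)

end Pool.Agent.Helper75.EC
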