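import Pool.Agent.Helper75.EC.Defs

/-!
# Module statements for the effective cone theorem (see /team-store/h75_effcone.md)
-/

open MvPolynomial

universe w

namespace Pool.Agent.Helper75.EC

/-- The point of `K^(ι × Fin 3)` with coordinates `x, y, z`. -/
def trip {R ι : Type*} (x y z : ι → R) : ι × Fin 3 → R :=
  fun q => ![x q.1, y q.1, z q.1] q.2

/-- `f` along the line `p + X d`. -/
noncomputable def pth {K σ : Type*} [Field K] (f : MvPolynomial σ K) (p d : σ → K) :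
    Polynomial K :=
  aeval (fun s => Polynomial.C (p s) + Polynomial.X * Polynomial.C (d s)) f

/-- The multi-homogenised pull-back of a section: homogeneous of degree `δ i` in the `i`-th
triple of variables `(xᵢ, yᵢ, zᵢ)`, of degree `a` in `y` and `b` in `z`, and invariant under
`yᵢ += (l + m tᵢ) xᵢ` and `zᵢ += l xᵢ`. -/
structure Inv {K : Type*} [Field K] {N : ℕ} (t : Fin N → K) (δ : Fin N → ℕ) (a b : ℕ)
    (f : MvPolynomial (Fin N × Fin 3) K) : Prop where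
  ne : f ≠ 0
  degi : ∀ d ∈ f.support, ∀ i, d (i, 0) + d (i, 1) + d (i, 2) = δ i
  dega : ∀ d ∈ f.support, ∑ i, d (i, 1) = a
  degb : ∀ d ∈ f.support, ∑ i, d (i, 2) = b
  invY : ∀ (x y z : Fin N → K) (l m : K),
    eval (trip x (fun i => y i + (l + m * t i) * x i) z) f = eval (trip x y z) f
  invZ : ∀ (x y z : Fin N → K) (l : K),
    eval (trip x y (fun i => z i + l * x i)) f = eval (trip x y z) f

/-! ## Lines -/

def ST_LB : Prop := ∀ (K : Type w) [Field K] [Infinite K] (P Q : Polynomial K) (e : ℤ),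
  (∀ ξ : K, ξ ≠ 0 → P.eval ξ = ξ ^ e * Q.eval ξ⁻¹) → P ≠ 0 → (P.natDegree : ℤ) ≤ e

def ST_DIAG : Prop := ∀ (K : Type w) [Field K] [Infinite K] (σ : Type)
  (f : MvPolynomial σ K) (p d d' : σ → K) (w1 w2 : ℕ),
  (∀ η : K, (pth f (fun s => p s + η * d' s) d).natDegree ≤ w1) →
  (∀ ξ : K, (pth f (fun s => p s + ξ * d s) d').natDegree ≤ w2) →
  (pth f p (fun s => d s + d' s)).natDegree ≤ w1 + w2

def ST_DENS : Prop := ∀ (K : Type w) [Field K] [Infinite K] (σ : Type)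
  (f : MvPolynomial σ K) (p d : σ → Polynomial K) (W : ℕ) (S : Set K), S.Finite →
  (∀ ε : K, ε ∉ S →
    (pth f (fun s => (p s).eval ε) (fun s => (d s).eval ε)).natDegree ≤ W) →
  ∀ ε : K, (pth f (fun s => (p s).eval ε) (fun s => (d s).eval ε)).natDegree ≤ W

/-! ## Degree bounds for invariant polynomials -/

/-- (inputs LB) the total weight is non-negative -/
def ST_W : Prop := ∀ (K : Type w) [Field K] [Infinite K] (N : ℕ) (t : Fin N → K)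
  (δ : Fin N → ℕ) (a b : ℕ) (f : MvPolynomial (Fin N × Fin 3) K), Inv t δ a b f →
  2 * a + b ≤ ∑ i, δ i

/-- (inputs LB) -/
def ST_T4 : Prop := ∀ (K : Type w) [Field K] [Infinite K] (N : ℕ) (t : Fin N → K)
  (δ : Fin N → ℕ) (a b W : ℕ) (f : MvPolynomial (Fin N × Fin 3) K), Inv t δ a b f →
  ∑ i, δ i = 2 * a + b + W → b ≤ a + W

/-- (inputs LB) -/
def ST_T2 : Prop := ∀ (K : Type w) [Field K] [Infinite K] (N : ℕ) (t : Fin N → K)
  (δ : Fin N → ℕ) (a b W : ℕ) (f : MvPolynomial (Fin N × Fin 3) K), Inv t δ a b f →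
  Function.Injective t → ∑ i, δ i = 2 * a + b + W → ∀ i, δ i ≤ W

/-- (inputs LB) one pole, moving `x` -/
def ST_D0 : Prop := ∀ (K : Type w) [Field K] [Infinite K] (N : ℕ) (t : Fin N → K)
  (δ : Fin N → ℕ) (a b W : ℕ) (f : MvPolynomial (Fin N × Fin 3) K), Inv t δ a b f →
  ∑ i, δ i = 2 * a + b + W → ∀ c : K, (∀ i, t i ≠ c) → ∀ x y z : Fin N → K,
  (pth f (trip x y z) (trip (fun i => y i / (t i - c)) 0 0)).natDegree ≤ W

/-- (inputs D0, DENS) one pole, moving `x` and `z` by multiples of `y` -/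
def ST_DA : Prop := ∀ (K : Type w) [Field K] [Infinite K] (N : ℕ) (t : Fin N → K)
  (δ : Fin N → ℕ) (a b W : ℕ) (f : MvPolynomial (Fin N × Fin 3) K), Inv t δ a b f →
  ∑ i, δ i = 2 * a + b + W → ∀ c : K, (∀ i, t i ≠ c) → ∀ (x y z : Fin N → K) (r s : K),
  (pth f (trip x y z) (trip (fun i => r * y i / (t i - c)) 0
    (fun i => s * y i / (t i - c)))).natDegree ≤ W

/-- (inputs DA, DENS) one pole, moving `z` by multiples of `x` and `y` -/
def ST_DB : Prop := ∀ (K : Type w) [Field K] [Infinite K] (N : ℕ) (t : Fin N → K)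
  (δ : Fin N → ℕ) (a b W : ℕ) (f : MvPolynomial (Fin N × Fin 3) K), Inv t δ a b f →
  ∑ i, δ i = 2 * a + b + W → ∀ c : K, (∀ i, t i ≠ c) → ∀ (x y z : Fin N → K) (r s : K),
  (pth f (trip x y z) (trip 0 0 (fun i => (r * x i + s * y i) / (t i - c)))).natDegree ≤ W

/-- (inputs DA, DIAG, DENS) `x += ξ (R/P) y`, `z += ξ (R'/P) y` -/
def ST_RA : Prop := ∀ (K : Type w) [Field K] [IsAlgClosed K] (N : ℕ) (t : Fin N → K)
  (δ : Fin N → ℕ) (a b W : ℕ) (f : MvPolynomial (Fin N × Fin 3) K), Inv t δ a b f →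
  ∑ i, δ i = 2 * a + b + W → ∀ (q : ℕ) (P R R' : Polynomial K), P.natDegree = q →
  R.degree < q → R'.degree < q → (∀ i, P.eval (t i) ≠ 0) → ∀ x y z : Fin N → K,
  (pth f (trip x y z) (trip (fun i => R.eval (t i) / P.eval (t i) * y i) 0
    (fun i => R'.eval (t i) / P.eval (t i) * y i))).natDegree ≤ q * W

/-- (inputs DB, DIAG, DENS) `z += ξ ((R'/P) x + (R/P) y)` -/
def ST_RB : Prop := ∀ (K : Type w) [Field K] [IsAlgClosed K] (N : ℕ) (t : Fin N → K)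
  (δ : Fin N → ℕ) (a b W : ℕ) (f : MvPolynomial (Fin N × Fin 3) K), Inv t δ a b f →
  ∑ i, δ i = 2 * a + b + W → ∀ (q : ℕ) (P R R' : Polynomial K), P.natDegree = q →
  R.degree < q → R'.natDegree ≤ q → P ≠ 0 → (∀ i, P.eval (t i) ≠ 0) → ∀ x y z : Fin N → K,
  (pth f (trip x y z) (trip 0 0 (fun i => R'.eval (t i) / P.eval (t i) * x i +
    R.eval (t i) / P.eval (t i) * y i))).natDegree ≤ q * W

/-! ## Generic solvability of the interpolation problems -/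

/-- A linear system with polynomial coefficients with one more unknown than equations;
`ψ r` are linear forms which do not vanish on non-zero solutions at special points `v r`. -/
def ST_GENLIN : Prop := ∀ (K : Type w) [Field K] [Infinite K] (σ ι κ ρ : Type) [Fintype ι]
  [Fintype κ] [Fintype ρ], Fintype.card κ = Fintype.card ι + 1 →
  ∀ (M : Matrix ι κ (MvPolynomial σ K)) (ψ : ρ → κ → K) (v : ρ → σ → K)
    (f : MvPolynomial σ K), f ≠ 0 →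
  (∀ (r : ρ) (c : κ → K), (∀ i, ∑ k, eval (v r) (M i k) * c k = 0) → ∑ k, ψ r k * c k = 0 →
    c = 0) →
  ∃ (x : σ → K) (c : κ → K), eval x f ≠ 0 ∧ (∀ i, ∑ k, eval x (M i k) * c k = 0) ∧
    ∀ r, ∑ k, ψ r k * c k ≠ 0

/-- (inputs GENLIN) -/
def ST_GL : Prop := ∀ (K : Type w) [Field K] [Infinite K] (N : ℕ) (t : Fin N → K),
  Function.Injective t → ∀ f : MvPolynomial (Fin N × Fin 3) K, f ≠ 0 →
  ∀ (q : ℕ) (J : Finset (Fin N)), J.card = 2 * q →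
  ∃ (x y z : Fin N → K) (P R : Polynomial K), eval (trip x y z) f ≠ 0 ∧ P.natDegree = q ∧
    R.degree < q ∧ (∀ i, P.eval (t i) ≠ 0) ∧
    ∀ i ∈ J, P.eval (t i) * x i + R.eval (t i) * y i = 0

/-- (inputs GENLIN) -/
def ST_GA : Prop := ∀ (K : Type w) [Field K] [Infinite K] (N : ℕ) (t : Fin N → K),
  Function.Injective t → ∀ f : MvPolynomial (Fin N × Fin 3) K, f ≠ 0 →
  ∀ (j : ℕ) (J : Finset (Fin N)), J.card = 3 * j + 3 →
  ∃ (x y z : Fin N → K) (P R R' : Polynomial K), eval (trip x y z) f ≠ 0 ∧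
    P.natDegree = 2 * j + 2 ∧ R.degree < (2 * j + 2 : ℕ) ∧ R'.degree < (2 * j + 2 : ℕ) ∧
    (∀ i, P.eval (t i) ≠ 0) ∧
    ∀ i ∈ J, P.eval (t i) * x i + R.eval (t i) * y i = 0 ∧
      P.eval (t i) * z i + R'.eval (t i) * y i = 0

/-- (inputs GENLIN) -/
def ST_GB : Prop := ∀ (K : Type w) [Field K] [Infinite K] (N : ℕ) (t : Fin N → K),
  Function.Injective t → ∀ f : MvPolynomial (Fin N × Fin 3) K, f ≠ 0 →
  ∀ (j : ℕ) (J : Finset (Fin N)), J.card = 3 * j + 1 →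
  ∃ (x y z : Fin N → K) (P R R' : Polynomial K), eval (trip x y z) f ≠ 0 ∧
    P.natDegree = j ∧ P ≠ 0 ∧ R.degree < j ∧ R'.natDegree ≤ j ∧
    (∀ i, P.eval (t i) ≠ 0) ∧
    ∀ i ∈ J, P.eval (t i) * z i + R'.eval (t i) * x i + R.eval (t i) * y i = 0

/-! ## The inequalities for invariant polynomials -/

/-- (inputs RA, GL) -/
def ST_IL : Prop := ∀ (K : Type w) [Field K] [IsAlgClosed K] (N : ℕ) (t : Fin N → K)
  (δ : Fin N → ℕ) (a b W : ℕ) (f : MvPolynomial (Fin N × Fin 3) K), Inv t δ a b f →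
  Function.Injective t → ∑ i, δ i = 2 * a + b + W → ∀ (q : ℕ) (J : Finset (Fin N)),
  J.card = 2 * q → ∑ i ∈ J, δ i ≤ a + b + q * W

/-- (inputs RA, GA) -/
def ST_IA : Prop := ∀ (K : Type w) [Field K] [IsAlgClosed K] (N : ℕ) (t : Fin N → K)
  (δ : Fin N → ℕ) (a b W : ℕ) (f : MvPolynomial (Fin N × Fin 3) K), Inv t δ a b f →
  Function.Injective t → ∑ i, δ i = 2 * a + b + W → ∀ (j : ℕ) (J : Finset (Fin N)),
  J.card = 3 * j + 3 → ∑ i ∈ J, δ i ≤ a + (2 * j + 2) * W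

/-- (inputs RB, GB) -/
def ST_IB : Prop := ∀ (K : Type w) [Field K] [IsAlgClosed K] (N : ℕ) (t : Fin N → K)
  (δ : Fin N → ℕ) (a b W : ℕ) (f : MvPolynomial (Fin N × Fin 3) K), Inv t δ a b f →
  Function.Injective t → ∑ i, δ i = 2 * a + b + W → ∀ (j : ℕ) (J : Finset (Fin N)),
  J.card = 3 * j + 1 → ∑ i ∈ J, δ i ≤ 2 * a + (j + 1) * W

/-! ## From sections to invariant polynomials -/

/-- scaling of the points -/
def ST_SCALE : Prop := ∀ (K : Type w) [Field K] (r s : ℕ)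
  (F : MvPolynomial (Fin r ⊕ Fin s) K) (a b m : ℕ) (u : Fin r → K) (v : Fin s → K) (c c' : K),
  IsBihom F a b → c ≠ 0 → c' ≠ 0 → OrdGe F (Sum.elim u v) m →
  OrdGe F (Sum.elim (fun j => c * u j) (fun j => c' * v j)) m

def ST_TRANS : Prop := ∀ (K : Type w) [Field K] [Infinite K] (N r s : ℕ) (t : Fin N → K)
  (u : Fin N → Fin r → K) (v : Fin N → Fin s → K), ∑ i, u i = 0 → ∑ i, t i • u i = 0 →
  ∑ i, v i = 0 → Submodule.span K (Set.range u) = ⊤ → Submodule.span K (Set.range v) = ⊤ →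
  ∀ (F : MvPolynomial (Fin r ⊕ Fin s) K) (a b : ℕ) (m : Fin N → ℕ), F ≠ 0 → IsBihom F a b →
  (∀ i, OrdGe F (Sum.elim (u i) (v i)) (m i)) →
  ∃ (δ : Fin N → ℕ) (f : MvPolynomial (Fin N × Fin 3) K), (∀ i, δ i + m i = a + b) ∧
    Inv t δ a b f

/-- Linearly general position gives normalised relations. -/
def ST_SETUP : Prop := ∀ (K : Type w) [Field K] [Infinite K] (n : ℕ)
  (u : Fin (n + 3) → Fin (n + 1) → K) (v : Fin (n + 3) → Fin (n + 2) → K),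
  (∀ s : Finset (Fin (n + 3)), s.card = n + 1 → LinearIndependent K fun i : s => u i) →
  (∀ s : Finset (Fin (n + 3)), s.card = n + 2 → LinearIndependent K fun i : s => v i) →
  ∃ (t r s : Fin (n + 3) → K), Function.Injective t ∧ (∀ i, r i ≠ 0) ∧ (∀ i, s i ≠ 0) ∧
    ∑ i, r i • u i = 0 ∧ ∑ i, (t i * r i) • u i = 0 ∧ ∑ i, s i • v i = 0

/-- Coordinates in which the points lie on the standard rational normal curves. -/
structure Frame {K : Type*} [Field K] {n : ℕ} (u : Fin (n + 3) → Fin (n + 1) → K)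
    (v : Fin (n + 3) → Fin (n + 2) → K) (t : Fin (n + 3) → K)
    (MA : Matrix (Fin (n + 1)) (Fin (n + 1)) K) (MB : Matrix (Fin (n + 2)) (Fin (n + 2)) K) :
    Prop where
  inj : Function.Injective t
  dA : MA.det ≠ 0
  dB : MB.det ≠ 0
  hA : ∀ i, ∃ c : K, c ≠ 0 ∧ MA.mulVec (u i) = fun j : Fin (n + 1) => c * t i ^ (j : ℕ)
  hB : ∀ i, ∃ c : K, c ≠ 0 ∧ MB.mulVec (v i) = fun j : Fin (n + 2) => c * t i ^ (j : ℕ)

/-- (inputs SETUP) -/
def ST_FRAME : Prop := ∀ (K : Type w) [Field K] [Infinite K] (n : ℕ)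
  (u : Fin (n + 3) → Fin (n + 1) → K) (v : Fin (n + 3) → Fin (n + 2) → K),
  (∀ s : Finset (Fin (n + 3)), s.card = n + 1 → LinearIndependent K fun i : s => u i) →
  (∀ s : Finset (Fin (n + 3)), s.card = n + 2 → LinearIndependent K fun i : s => v i) →
  ∃ t MA MB, Frame u v t MA MB

/-! ## The polyhedral cone -/

/-- `δᵢ = a + b - mᵢ`. -/
def del {n : ℕ} (x : Cls n) (i : Fin (n + 3)) : ℝ := x.1 + x.2.1 - x.2.2 i

/-- `w = ∑ δᵢ - 2a - b = (n+1) a + (n+2) b - ∑ mᵢ`. -/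
noncomputable def wt {n : ℕ} (x : Cls n) : ℝ := ∑ i, del x i - 2 * x.1 - x.2.1

/-- The polyhedral cone cut out by the inequalities. -/
structure InC {n : ℕ} (x : Cls n) : Prop where
  a0 : 0 ≤ x.1
  b0 : 0 ≤ x.2.1
  d0 : ∀ i, 0 ≤ del x i
  dw : ∀ i, del x i ≤ wt x
  t4 : x.2.1 ≤ x.1 + wt x
  hL : ∀ (q : ℕ) (J : Finset (Fin (n + 3))), J.card = 2 * q →
    ∑ i ∈ J, del x i ≤ x.1 + x.2.1 + q * wt x
  hA : ∀ (j : ℕ) (J : Finset (Fin (n + 3))), J.card = 3 * j + 3 →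
    ∑ i ∈ J, del x i ≤ x.1 + (2 * j + 2) * wt x
  hB : ∀ (j : ℕ) (J : Finset (Fin (n + 3))), J.card = 3 * j + 1 →
    ∑ i ∈ J, del x i ≤ 2 * x.1 + (j + 1) * wt x

/-- (inputs W T2 T4 IL IA IB TRANS SCALE SETUP) every pseudo-effective class satisfies the
inequalities -/
def ST_EFFC : Prop := ∀ (K : Type w) [Field K] [IsAlgClosed K] (n : ℕ)
  (u : Fin (n + 3) → Fin (n + 1) → K) (v : Fin (n + 3) → Fin (n + 2) → K),
  (∀ s : Finset (Fin (n + 3)), s.card = n + 1 → LinearIndependent K fun i : s => u i) →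
  (∀ s : Finset (Fin (n + 3)), s.card = n + 2 → LinearIndependent K fun i : s => v i) →
  ∀ x ∈ Eff u v, InC x

/-- `D_{α,β,I} = α H₁ + β H₂ - (α+β-1) ∑ Eᵢ - ∑_{i ∈ I} Eᵢ`. -/
noncomputable def Dcls {n : ℕ} (α β : ℕ) (I : Finset (Fin (n + 3))) : Cls n :=
  ((α : ℝ), (β : ℝ), fun i => (α : ℝ) + β - 1 + if i ∈ I then 1 else 0)

/-- The admissible pairs `(α, β)` of vertices. -/
def VT (α β : ℕ) : Prop := β ≤ α + 1 ∧ (β = 0 ∨ β = 1 ∨ β + 1 = α ∨ β = α ∨ β = α + 1)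

/-- The generators. -/
def vgens (n : ℕ) : Set (Cls n) :=
  {x | ∃ (α β : ℕ) (I : Finset (Fin (n + 3))), 2 * α + β + I.card = n + 2 ∧ VT α β ∧
    x = Dcls α β I}

/-- A law `π` on `{1, ..., N}` (weights `π k`) with mean `S`, concentrated enough to dominate
`δ`. -/
structure Law {N : ℕ} (δ : Fin N → ℝ) (π : ℕ → ℝ) : Prop where
  nonneg : ∀ k, 0 ≤ π k
  supp : ∀ k, π k ≠ 0 → 1 ≤ k ∧ k ≤ N
  total : ∑ k ∈ Finset.range (N + 1), π k = 1
  mean : ∑ k ∈ Finset.range (N + 1), π k * k = ∑ i, δ i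
  maj : ∀ J : Finset (Fin N), ∑ i ∈ J, δ i ≤ ∑ k ∈ Finset.range (N + 1), π k * (min k J.card : ℕ)

/-- majorisation -/
def ST_MAJ : Prop := ∀ (N : ℕ) (δ c : Fin N → ℝ) (π A : ℕ → ℝ), Law δ π →
  (∀ K : Finset (Fin N), π K.card ≠ 0 → 0 ≤ A K.card + ∑ i ∈ K, c i) →
  0 ≤ ∑ k ∈ Finset.range (N + 1), π k * A k + ∑ i, c i * δ i

/-- largest `β` for `k = 2α + β + 1` -/
noncomputable def bmax (k : ℕ) : ℝ :=
  if k % 3 = 2 then ((k : ℝ) + 1) / 3 else if k % 3 = 1 then ((k : ℝ) - 1) / 3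
    else ((k : ℝ) - 3) / 3

/-- smallest `β` for `k = 2α + β + 1` -/
noncomputable def bmin (k : ℕ) : ℝ := if k % 2 = 0 then 1 else 0

/-- the law for the upper bound of `b` -/
def ST_UP : Prop := ∀ (N : ℕ) (δ : Fin N → ℝ) (b : ℝ), (∀ i, 0 ≤ δ i) → (∀ i, δ i ≤ 1) →
  3 * b ≤ ∑ i, δ i + 1 → b ≤ ∑ i, δ i - 1 → 1 ≤ ∑ i, δ i →
  (∀ (j : ℕ) (J : Finset (Fin N)), J.card = 3 * j + 3 →
    b ≤ ∑ i, δ i + 4 * j + 3 - 2 * ∑ i ∈ J, δ i) →
  (∀ (j : ℕ) (J : Finset (Fin N)), J.card = 3 * j + 1 →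
    b ≤ ∑ i, δ i + j - ∑ i ∈ J, δ i) →
  ∃ π : ℕ → ℝ, Law δ π ∧ b ≤ ∑ k ∈ Finset.range (N + 1), π k * bmax k

/-- the law for the lower bound of `b` -/
def ST_LO : Prop := ∀ (N : ℕ) (δ : Fin N → ℝ) (b : ℝ), (∀ i, 0 ≤ δ i) → (∀ i, δ i ≤ 1) →
  0 ≤ b → 1 ≤ ∑ i, δ i →
  (∀ (q : ℕ) (J : Finset (Fin N)), J.card = 2 * q →
    2 * ∑ i ∈ J, δ i - 2 * q - ∑ i, δ i + 1 ≤ b) →
  ∃ π : ℕ → ℝ, Law δ π ∧ ∑ k ∈ Finset.range (N + 1), π k * bmin k ≤ b

/-- (inputs MAJ UP LO) -/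
def ST_POLY : Prop := ∀ (n : ℕ) (x : Cls n), InC x → x ∈ Submodule.span NNReal (vgens n)

/-- the vertices are extremal -/
def ST_EXT : Prop := ∀ (n α β : ℕ) (I : Finset (Fin (n + 3))), 2 * α + β + I.card = n + 2 →
  VT α β → ∀ x y : Cls n, InC x → InC y → ∀ s : ℝ, 0 ≤ s → x + y = s • Dcls α β I →
  ∃ s' : ℝ, 0 ≤ s' ∧ x = s' • Dcls α β I

/-! ## Sections -/

section

variable {K : Type*} [Field K] {n : ℕ}

/-- `Y`, read as a functional on polynomials of degree at most `n`, applied to `P`. -/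
noncomputable def linY (MA : Matrix (Fin (n + 1)) (Fin (n + 1)) K) (P : Polynomial K) :
    MvPolynomial (Fin (n + 1) ⊕ Fin (n + 2)) K :=
  ∑ k : Fin (n + 1), C (P.coeff k) * ∑ j, C (MA k j) * X (Sum.inl j)

/-- `Z`, read as a functional on polynomials of degree at most `n + 1`, applied to `P`. -/
noncomputable def linZ (MB : Matrix (Fin (n + 2)) (Fin (n + 2)) K) (P : Polynomial K) :
    MvPolynomial (Fin (n + 1) ⊕ Fin (n + 2)) K :=
  ∑ k : Fin (n + 2), C (P.coeff k) * ∑ j, C (MB k j) * X (Sum.inr j)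

/-- number of a column -/
def cix (α β : ℕ) : Fin α ⊕ Fin β → ℕ := Sum.elim (fun c => (c : ℕ)) (fun c => α + (c : ℕ))

/-- The Hankel type matrix. -/
noncomputable def secM (MA : Matrix (Fin (n + 1)) (Fin (n + 1)) K)
    (MB : Matrix (Fin (n + 2)) (Fin (n + 2)) K) (P g : Polynomial K) (α β : ℕ) :
    Matrix (Fin α ⊕ Fin β) (Fin α ⊕ Fin β) (MvPolynomial (Fin (n + 1) ⊕ Fin (n + 2)) K) :=
  fun r c => Sum.elim
    (fun i : Fin α => linY MA (P * Polynomial.X ^ ((i : ℕ) + cix α β c)))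
    (fun i : Fin β => linZ MB (P * g * Polynomial.X ^ ((i : ℕ) + cix α β c))) r

/-- The polynomial with roots `t i`, `i ∈ I`. -/
noncomputable def rootP (t : Fin (n + 3) → K) (I : Finset (Fin (n + 3))) : Polynomial K :=
  ∏ i ∈ I, (Polynomial.X - Polynomial.C (t i))

end

def ST_SEC1 : Prop := ∀ (K : Type w) [Field K] [Infinite K] (n : ℕ)
  (u : Fin (n + 3) → Fin (n + 1) → K) (v : Fin (n + 3) → Fin (n + 2) → K)
  (t : Fin (n + 3) → K) (MA : Matrix (Fin (n + 1)) (Fin (n + 1)) K)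
  (MB : Matrix (Fin (n + 2)) (Fin (n + 2)) K), Frame u v t MA MB →
  ∀ (α β : ℕ) (I : Finset (Fin (n + 3))), 2 * α + β + I.card = n + 2 → β ≤ α + 1 →
  1 ≤ α + β → ∀ g : Polynomial K, g ≠ 0 → g.natDegree ≤ α + 1 - β →
  (secM MA MB (rootP t I) g α β).det ≠ 0 ∧ IsBihom (secM MA MB (rootP t I) g α β).det α β ∧
  ∀ i, OrdGe (secM MA MB (rootP t I) g α β).det (Sum.elim (u i) (v i))
    (α + β - 1 + if i ∈ I then 1 else 0)

def ST_SEC2 : Prop := ∀ (K : Type w) [Field K] [Infinite K] (n : ℕ)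
  (u : Fin (n + 3) → Fin (n + 1) → K) (v : Fin (n + 3) → Fin (n + 2) → K)
  (t : Fin (n + 3) → K) (MA : Matrix (Fin (n + 1)) (Fin (n + 1)) K)
  (MB : Matrix (Fin (n + 2)) (Fin (n + 2)) K), Frame u v t MA MB →
  ∀ (α β : ℕ) (I : Finset (Fin (n + 3))), 2 * α + β + I.card = n + 2 → 1 ≤ β → β ≤ α →
  ∃ g g' : Polynomial K, g ≠ 0 ∧ g' ≠ 0 ∧ g.natDegree ≤ α + 1 - β ∧
    g'.natDegree ≤ α + 1 - β ∧ ∀ l m : K,
    C l * (secM MA MB (rootP t I) g α β).det + C m * (secM MA MB (rootP t I) g' α β).det = 0 →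
    l = 0 ∧ m = 0

/-! ## Orders and bidegrees of products -/

def ST_MUL1 : Prop := ∀ (K : Type w) [Field K] (σ : Type) (F G : MvPolynomial σ K) (p : σ → K)
  (k l : ℕ), OrdGe F p k → OrdGe G p l → OrdGe (F * G) p (k + l)

def ST_MUL2 : Prop := ∀ (K : Type w) [Field K] (σ : Type) (F G : MvPolynomial σ K) (p : σ → K)
  (k l : ℕ), ¬ OrdGe F p (k + 1) → ¬ OrdGe G p (l + 1) → ¬ OrdGe (F * G) p (k + l + 1)

def ST_MUL3 : Prop := ∀ (K : Type w) [Field K] (σ : Type) (F : MvPolynomial σ K) (p : σ → K),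
  F ≠ 0 → ∃ k, OrdGe F p k ∧ ¬ OrdGe F p (k + 1)

def ST_MUL4 : Prop := ∀ (K : Type w) [Field K] (r s : ℕ)
  (F G : MvPolynomial (Fin r ⊕ Fin s) K) (a b : ℕ), IsBihom (F * G) a b → F * G ≠ 0 →
  ∃ a1 b1 a2 b2, IsBihom F a1 b1 ∧ IsBihom G a2 b2 ∧ a1 + a2 = a ∧ b1 + b2 = b

def ST_MUL5 : Prop := ∀ (K : Type w) [Field K] (r s : ℕ)
  (F G : MvPolynomial (Fin r ⊕ Fin s) K) (a b a' b' : ℕ), IsBihom F a b → IsBihom G a' b' →
  IsBihom (F * G) (a + a') (b + b')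

/-! ## Conclusion -/

/-- (inputs MUL1..MUL5) an extremal class with two independent sections is movable -/
def ST_MOB : Prop := ∀ (K : Type w) [Field K] (n : ℕ)
  (u : Fin (n + 3) → Fin (n + 1) → K) (v : Fin (n + 3) → Fin (n + 2) → K)
  (a b : ℕ) (m : Fin (n + 3) → ℕ) (F G : MvPolynomial (Fin (n + 1) ⊕ Fin (n + 2)) K),
  0 < a → IsSection u v a b (fun i => (m i : ℤ)) F → IsSection u v a b (fun i => (m i : ℤ)) G →
  (∀ l l' : K, C l * F + C l' * G = 0 → l = 0 ∧ l' = 0) →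
  (∀ x ∈ effClasses u v, ∀ y ∈ effClasses u v, ∀ s : ℝ, 0 ≤ s →
    x + y = s • cls a b (fun i => (m i : ℤ)) →
    ∃ s' : ℝ, 0 ≤ s' ∧ x = s' • cls a b (fun i => (m i : ℤ))) →
  cls a b (fun i => (m i : ℤ)) ∈ Submodule.span NNReal (movClasses u v)

/-- (inputs EFFC EXT SEC1) -/
def ST_PULL1 : Prop := ∀ (K : Type w) [Field K] [IsAlgClosed K] (n : ℕ)
  (u : Fin (n + 3) → Fin (n + 1) → K) (v : Fin (n + 3) → Fin (n + 2) → K),
  (∀ x ∈ Eff u v, InC x) → ∀ (t : Fin (n + 3) → K) (MA : Matrix (Fin (n + 1)) (Fin (n + 1)) K)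
  (MB : Matrix (Fin (n + 2)) (Fin (n + 2)) K), Frame u v t MA MB →
  ∀ (α : ℕ) (I : Finset (Fin (n + 3))), 2 * α + I.card = n + 2 → 1 ≤ α →
  Dcls α 0 I ∈ pulledBack u v

/-- (inputs EFFC EXT SEC1) -/
def ST_PULL2 : Prop := ∀ (K : Type w) [Field K] [IsAlgClosed K] (n : ℕ)
  (u : Fin (n + 3) → Fin (n + 1) → K) (v : Fin (n + 3) → Fin (n + 2) → K),
  (∀ x ∈ Eff u v, InC x) → ∀ (t : Fin (n + 3) → K) (MA : Matrix (Fin (n + 1)) (Fin (n + 1)) K)
  (MB : Matrix (Fin (n + 2)) (Fin (n + 2)) K), Frame u v t MA MB →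
  ∀ (I : Finset (Fin (n + 3))), I.card = n + 1 → Dcls 0 1 I ∈ pulledBack u v

/-- the determinant vanishes on the join -/
def ST_BV : Prop := ∀ (K : Type w) [Field K] (n : ℕ)
  (u : Fin (n + 3) → Fin (n + 1) → K) (v : Fin (n + 3) → Fin (n + 2) → K)
  (t : Fin (n + 3) → K) (MA : Matrix (Fin (n + 1)) (Fin (n + 1)) K)
  (MB : Matrix (Fin (n + 2)) (Fin (n + 2)) K), Frame u v t MA MB →
  ∀ (α : ℕ) (I : Finset (Fin (n + 3))), 3 * α + I.card = n + 1 → 1 ≤ α →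
  ∀ p ∈ joinSet u v MA⁻¹ MB⁻¹ I (2 * α), eval p (secM MA MB (rootP t I) 1 α (α + 1)).det = 0

/-- the join is irreducible -/
def ST_BP : Prop := ∀ (K : Type w) [Field K] [Infinite K] (n : ℕ)
  (u : Fin (n + 3) → Fin (n + 1) → K) (v : Fin (n + 3) → Fin (n + 2) → K)
  (A : Matrix (Fin (n + 1)) (Fin (n + 1)) K) (B : Matrix (Fin (n + 2)) (Fin (n + 2)) K)
  (I : Finset (Fin (n + 3))) (k : ℕ) (F G : MvPolynomial (Fin (n + 1) ⊕ Fin (n + 2)) K),
  (∀ p ∈ joinSet u v A B I k, eval p (F * G) = 0) →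
  (∀ p ∈ joinSet u v A B I k, eval p F = 0) ∨ (∀ p ∈ joinSet u v A B I k, eval p G = 0)

/-- an open part of the determinantal hypersurface lies in the join -/
def ST_BC : Prop := ∀ (K : Type w) [Field K] [IsAlgClosed K] (n : ℕ)
  (u : Fin (n + 3) → Fin (n + 1) → K) (v : Fin (n + 3) → Fin (n + 2) → K)
  (t : Fin (n + 3) → K) (MA : Matrix (Fin (n + 1)) (Fin (n + 1)) K)
  (MB : Matrix (Fin (n + 2)) (Fin (n + 2)) K), Frame u v t MA MB →
  ∀ (α : ℕ) (I : Finset (Fin (n + 3))), 3 * α + I.card = n + 1 → 1 ≤ α →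
  ∃ D : MvPolynomial (Fin (n + 1) ⊕ Fin (n + 2)) K,
    (∃ p ∈ joinSet u v MA⁻¹ MB⁻¹ I (2 * α), eval p D ≠ 0) ∧
    ∀ p, eval p (secM MA MB (rootP t I) 1 α (α + 1)).det = 0 → eval p D ≠ 0 →
      p ∈ joinSet u v MA⁻¹ MB⁻¹ I (2 * α)

/-- (inputs BV BP BC SEC1 MUL1..5 EXT) -/
def ST_BSJ : Prop := ∀ (K : Type w) [Field K] [IsAlgClosed K] (n : ℕ)
  (u : Fin (n + 3) → Fin (n + 1) → K) (v : Fin (n + 3) → Fin (n + 2) → K),
  (∀ x ∈ Eff u v, InC x) → ∀ (t : Fin (n + 3) → K) (MA : Matrix (Fin (n + 1)) (Fin (n + 1)) K)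
  (MB : Matrix (Fin (n + 2)) (Fin (n + 2)) K), Frame u v t MA MB →
  ∀ (α : ℕ) (I : Finset (Fin (n + 3))), 3 * α + I.card = n + 1 → 1 ≤ α →
  Dcls α (α + 1) I ∈ Submodule.span NNReal (bsjClasses u v)

end Pool.Agent.Helper75.EC
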